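import Pool.Agent.Lib.MP_509488_nt.Short81.FinA
import Pool.Agent.Lib.MP_509488_nt.Unif.UP

set_option autoImplicit false

/-!
# Pairs of bases in short boxes
-/

namespace Pool.Agent.Lib.MP_509488_nt.Unif

open Finset

namespace UPI

open scoped Classical in
/-- Numbers without prime factors `≤ w` in a short interval. -/
theorem rough_int : ∃ s Z0 : ℕ, 1 ≤ s ∧ ∀ (w : ℝ), 4 ≤ w → (Z0 : ℝ) ≤ w → ∀ X M : ℕ,
    w ^ s ≤ M →
    (((Ioc X (X + M)).filter (fun m : ℕ => ∀ l : ℕ, l.Prime → l ∣ m → w < l)).card : ℝ) ≤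
      4 * (M / Real.log w) := by
  obtain ⟨s, Z0, hs1, hs⟩ := Pool.Agent.Lib.MP_325d88_nt.rough_short
  refine ⟨s, Z0 , hs1, fun w hw hwZ X M hM => ?_⟩
  have hw0 : (0 : ℝ) ≤ w := by linarith
  have hz : 2 ≤ ⌊w⌋₊ := Nat.le_floor (by push_cast; linarith)
  have hZ : Z0 ≤ ⌊w⌋₊ := Nat.le_floor hwZ
  have hzM : ⌊w⌋₊ ^ s ≤ M := by
    have h1 : ((⌊w⌋₊ : ℕ) : ℝ) ^ s ≤ w ^ s :=
      pow_le_pow_left₀ (Nat.cast_nonneg _) (Nat.floor_le hw0) s
    exact_mod_cast h1.trans hM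
  have h := hs ⌊w⌋₊ M hZ hzM ((X : ℤ) + 1)
  have hV := Pool.Agent.Lib.MP_325d88_nt.VV_upper ⌊w⌋₊ hz
  have hnn : ∀ t : ℤ, 0 ≤ Pool.Agent.Lib.MP_325d88_nt.rgh 1 ⌊w⌋₊ t := by
    intro t
    rw [Pool.Agent.Lib.MP_325d88_nt.rgh_eq]
    split_ifs <;> norm_num
  have h1 : (((Ioc X (X + M)).filter (fun m : ℕ => ∀ l : ℕ, l.Prime → l ∣ m → w < l)).card : ℝ) ≤
      ∑ m ∈ Ioc X (X + M), Pool.Agent.Lib.MP_325d88_nt.rgh 1 ⌊w⌋₊ (m : ℤ) := by
    rw [Finset.card_filter]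
    push_cast
    apply Finset.sum_le_sum
    intro m hm
    rw [Pool.Agent.Lib.MP_325d88_nt.rgh_eq]
    by_cases hc : ∀ l : ℕ, l.Prime → l ∣ m → w < l
    · rw [if_pos hc, if_pos]
      intro p hp hpm
      rw [Pool.Agent.Lib.MP_325d88_nt.mem_PR] at hp
      have h2 := hc p hp.2.2 (by exact_mod_cast hpm)
      have h3 : (p : ℝ) ≤ w := (Nat.le_floor_iff (by linarith)).1 hp.2.1
      linarith
    · rw [if_neg hc]
      split_ifs <;> norm_num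
  have h2 : ∑ m ∈ Ioc X (X + M), Pool.Agent.Lib.MP_325d88_nt.rgh 1 ⌊w⌋₊ (m : ℤ) ≤
      ∑ t ∈ Finset.Ico ((X : ℤ) + 1) ((X : ℤ) + 1 + M),
        Pool.Agent.Lib.MP_325d88_nt.rgh 1 ⌊w⌋₊ t := by
    rw [← Finset.sum_image (s := Ioc X (X + M)) (g := fun n : ℕ => (n : ℤ))
      (f := fun t => Pool.Agent.Lib.MP_325d88_nt.rgh 1 ⌊w⌋₊ t)
      (fun a _ b _ hab => by simpa using hab)]
    apply Finset.sum_le_sum_of_subset_of_nonneg
    · intro t ht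
      rw [Finset.mem_image] at ht
      obtain ⟨n, hn, rfl⟩ := ht
      rw [Finset.mem_Ioc] at hn
      rw [Finset.mem_Ico]
      constructor <;> omega
    · intro t _ _
      exact hnn t
  have hlw : 0 < Real.log w := Real.log_pos (by linarith)
  have hfl : w - 1 < (⌊w⌋₊ : ℝ) := by
    have := Nat.lt_floor_add_one w
    linarith
  have hf0 : (0 : ℝ) < ⌊w⌋₊ := by linarith
  have h4 : w ≤ (⌊w⌋₊ : ℝ) ^ 2 := by nlinarith
  have h5 : Real.log w ≤ 2 * Real.log ⌊w⌋₊ := by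
    have := Real.log_le_log (by linarith) h4
    rwa [Real.log_pow, Nat.cast_ofNat] at this
  have h6 : 1 / Real.log ⌊w⌋₊ ≤ 2 / Real.log w := by
    rw [div_le_div_iff₀ (by linarith) hlw]
    linarith
  have hM0 : (0 : ℝ) ≤ M := Nat.cast_nonneg M
  calc _ ≤ 2 * (Pool.Agent.Lib.MP_325d88_nt.VV 1 ⌊w⌋₊ * M) := h1.trans (h2.trans h)
    _ ≤ 2 * ((2 / Real.log w) * M) := by
        have := mul_le_mul_of_nonneg_right (hV.trans h6) hM0
        linarith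
    _ = 4 * (M / Real.log w) := by ring

end UPI

/-- Pairs `x` in an interval `(X, X + M₁]`, `y` in a progression `a + b j`, `j < M₂`, both
inside `[1, N]`, `M₁, M₂ ≥ m`, `log m ≥ (log log N) ^ C`. -/
def Pairs4A : Prop := ∃ c : ℝ, 0 < c ∧ ∃ C N₀ : ℕ, ∀ N : ℕ, N₀ ≤ N → ∀ X a b M₁ M₂ m : ℕ,
  1 ≤ a → 1 ≤ b → X + M₁ ≤ N → (∀ j < M₂, a + b * j ≤ N) → m ≤ M₁ → m ≤ M₂ →
  Real.log (Real.log N) ^ C ≤ Real.log m →
  ({v : ℕ × ℕ | X < v.1 ∧ v.1 ≤ X + M₁ ∧ (∃ j < M₂, v.2 = a + b * j) ∧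
      2 ≤ v.1 ∧ 2 ≤ v.2 ∧ Nat.Coprime v.1 v.2 ∧
      ∃ (p q r : ℕ) (z e₁ e₂ : ℤ), 1 ≤ p ∧ q.Prime ∧ 2 ≤ r ∧ (e₁ = 1 ∨ e₁ = -1) ∧
        (e₂ = 1 ∨ e₂ = -1) ∧ e₁ * (v.1 : ℤ) ^ p + e₂ * (v.2 : ℤ) ^ q = z ^ r}.ncard : ℝ) ≤
    (M₁ : ℝ) * M₂ / Real.log m ^ c

open scoped Classical in
/-- pairs of bases in short boxes. -/
theorem pairs4A (h : Final4A) : Pairs4A := by
  obtain ⟨C, N₁, hF⟩ := h
  obtain ⟨s, Z0, hs1, hR0⟩ := UPI.rough_int
  set κ : ℝ := 1 / (4 * C + 4) with hκ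
  have hC0 : (0 : ℝ) ≤ C := Nat.cast_nonneg C
  have hκ0 : 0 < κ := by positivity
  have hκ1 : κ ≤ 1 / 4 := by
    rw [hκ]; exact one_div_le_one_div_of_le (by norm_num) (by linarith)
  have hκC : κ * C ≤ 1 / 4 := by
    rw [hκ, one_div, inv_mul_eq_div, div_le_div_iff₀ (by positivity) (by norm_num)]
    linarith
  obtain ⟨t₀, ht₀⟩ := UPM.reals C 1 κ hκ0 hκ1 hκC
  -- further conditions on t
  have hlarge : ∃ t₁ : ℝ, ∀ t : ℝ, t₁ ≤ t → (s : ℝ) * t ^ κ ≤ t ∧ (Z0 : ℝ) ≤ t ^ κ := by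
    have e1 := (tendsto_rpow_atTop hκ0).eventually_ge_atTop (Z0 : ℝ)
    have e2 := (tendsto_rpow_atTop (show (0 : ℝ) < 1 - κ by linarith)).eventually_ge_atTop (s : ℝ)
    obtain ⟨t₁, h1⟩ := Filter.eventually_atTop.1 ((e1.and e2).and
      (Filter.eventually_gt_atTop (0 : ℝ)))
    refine ⟨t₁, fun t ht => ?_⟩
    obtain ⟨⟨h2, h3⟩, h4⟩ := h1 t ht
    refine ⟨?_, h2⟩
    calc (s : ℝ) * t ^ κ ≤ t ^ (1 - κ) * t ^ κ :=
          mul_le_mul_of_nonneg_right h3 (by positivity)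
      _ = t := by
          rw [← Real.rpow_add h4]
          ring_nf
          exact Real.rpow_one t
  obtain ⟨t₁, ht₁⟩ := hlarge
  obtain ⟨N₂, hN₂⟩ := log_ge (Real.exp (max 1 (max t₀ t₁)))
  refine ⟨κ / 2, by positivity, 4 * C + 4, max (max N₁ N₂) 1, ?_⟩
  intro N hN X a b M₁ M₂ m ha1 hb1 hX hY hm1 hm2 hm
  have hN1 : N₁ ≤ N := le_trans (le_trans (le_max_left _ _) (le_max_left _ _)) hN
  have hN2 : N₂ ≤ N := le_trans (le_trans (le_max_right _ _) (le_max_left _ _)) hN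
  have hLN := hN₂ N hN2
  have hLN0 : 0 < Real.log N := lt_of_lt_of_le (Real.exp_pos _) hLN
  have hLL : max 1 (max t₀ t₁) ≤ Real.log (Real.log N) := by
    rw [Real.le_log_iff_exp_le hLN0]; exact hLN
  have hLL1 : 1 ≤ Real.log (Real.log N) := (le_max_left _ _).trans hLL
  set t : ℝ := Real.log m with ht
  have hLLt : Real.log (Real.log N) ≤ t := by
    calc Real.log (Real.log N) = Real.log (Real.log N) ^ 1 := (pow_one _).symm
      _ ≤ Real.log (Real.log N) ^ (4 * C + 4) := pow_le_pow_right₀ hLL1 (by omega)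
      _ ≤ t := hm
  have htt0 : t₀ ≤ t := (le_trans (le_max_left _ _) (le_max_right _ _)).trans (hLL.trans hLLt)
  have htt1 : t₁ ≤ t := (le_trans (le_max_right _ _) (le_max_right _ _)).trans (hLL.trans hLLt)
  obtain ⟨a1, a2, a3, a4, a5, a6, a7, a8⟩ := ht₀ t htt0
  obtain ⟨b1, b2⟩ := ht₁ t htt1
  have ht0 : 0 < t := by linarith
  have hmpos : (1 : ℝ) < m := by
    by_contra hcon
    push Not at hcon
    have : t ≤ 0 := Real.log_nonpos (Nat.cast_nonneg m) hcon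
    linarith
  have hmexp : Real.exp t = m := Real.exp_log (by linarith)
  set w : ℝ := Real.exp (t ^ κ) with hw
  set T : ℝ := t ^ (κ / 2) with hT
  have hlogw : Real.log w = t ^ κ := Real.log_exp _
  have hwN : Real.log N ≤ w := by
    have h1 : Real.log (Real.log N) ≤ t ^ κ := by
      have h2 : (Real.log (Real.log N) ^ (4 * C + 4)) ^ κ ≤ t ^ κ :=
        Real.rpow_le_rpow (by positivity) hm hκ0.le
      have h3 : (Real.log (Real.log N) ^ (4 * C + 4)) ^ κ = Real.log (Real.log N) := by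
        rw [← Real.rpow_natCast, ← Real.rpow_mul (by linarith)]
        have : ((4 * C + 4 : ℕ) : ℝ) * κ = 1 := by
          rw [hκ]; push_cast; field_simp
        rw [this, Real.rpow_one]
      linarith
    calc Real.log N = Real.exp (Real.log (Real.log N)) := (Real.exp_log hLN0).symm
      _ ≤ w := Real.exp_le_exp.2 h1
  have hM1r : (m : ℝ) ≤ M₁ := by exact_mod_cast hm1
  have hM2r : (m : ℝ) ≤ M₂ := by exact_mod_cast hm2
  have hM10 : (0 : ℝ) < M₁ := by linarith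
  have hM20 : (0 : ℝ) < M₂ := by linarith
  have hws : w ^ s ≤ (M₁ : ℝ) := by
    calc w ^ s = Real.exp (s * t ^ κ) := by rw [hw, ← Real.exp_nat_mul]
      _ ≤ Real.exp t := Real.exp_le_exp.2 b1
      _ = m := hmexp
      _ ≤ M₁ := hM1r
  have hwZ : (Z0 : ℝ) ≤ w := b2.trans (by
    have := Real.add_one_le_exp (t ^ κ)
    linarith)
  have hRc := hR0 w a4 hwZ X M₁ hws
  rw [hlogw] at hRc
  set R : Finset ℕ := (Ioc X (X + M₁)).filter (fun m : ℕ => ∀ l : ℕ, l.Prime → l ∣ m → w < l)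
    with hR
  set AP : Finset ℕ := (range M₂).image (fun j => a + b * j) with hAP
  have hAPc : AP.card ≤ M₂ := by
    refine Finset.card_image_le.trans ?_
    rw [Finset.card_range]
  have hAPm : ∀ y : ℕ, (∃ j < M₂, y = a + b * j) ↔ y ∈ AP := by
    intro y
    rw [hAP, Finset.mem_image]
    constructor
    · rintro ⟨j, h1, rfl⟩
      exact ⟨j, Finset.mem_range.2 h1, rfl⟩
    · rintro ⟨j, h1, rfl⟩
      exact ⟨j, Finset.mem_range.1 h1, rfl⟩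
  set B : ℕ → Finset ℕ := fun x => AP.filter (fun y : ℕ =>
      (∃ j < M₂, y = a + b * j) ∧ 2 ≤ y ∧ Nat.Coprime x y ∧
      ∃ (p q r : ℕ) (z e₁ e₂ : ℤ), 1 ≤ p ∧ q.Prime ∧ 2 ≤ r ∧ (e₁ = 1 ∨ e₁ = -1) ∧
        (e₂ = 1 ∨ e₂ = -1) ∧ e₁ * (x : ℤ) ^ p + e₂ * (y : ℤ) ^ q = z ^ r ∧
        ((∃ l : ℕ, l.Prime ∧ l ∣ x * y ∧ (l : ℝ) ≤ w) ∨
          ((p : ℝ) ≤ Real.exp w ∧ (q : ℝ) ≤ Real.exp w))) with hB
  have hexp : Real.exp (-(Real.log M₂ / (t ^ κ) ^ C)) ≤ Real.exp (-(t / (t ^ κ) ^ C)) := by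
    apply Real.exp_le_exp.2
    have h1 : t ≤ Real.log M₂ := Real.log_le_log (by linarith) hM2r
    have h2 : t / (t ^ κ) ^ C ≤ Real.log M₂ / (t ^ κ) ^ C :=
      div_le_div_of_nonneg_right h1 (by positivity)
    linarith
  have hBc : ∀ x ∈ (Ioc X (X + M₁)).filter (fun x => 2 ≤ x), ((B x).card : ℝ) ≤
      M₂ * (1 / (3 * T)) := by
    intro x hx
    rw [Finset.mem_filter, Finset.mem_Ioc] at hx
    have h1 := hF N hN1 w hwN x hx.2 (hx.1.2.trans hX) a b M₂ ha1 hb1 hY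
    rw [hlogw] at h1
    have h2 : {y : ℕ | (∃ j < M₂, y = a + b * j) ∧ 2 ≤ y ∧ Nat.Coprime x y ∧
      ∃ (p q r : ℕ) (z e₁ e₂ : ℤ), 1 ≤ p ∧ q.Prime ∧ 2 ≤ r ∧ (e₁ = 1 ∨ e₁ = -1) ∧
        (e₂ = 1 ∨ e₂ = -1) ∧ e₁ * (x : ℤ) ^ p + e₂ * (y : ℤ) ^ q = z ^ r ∧
        ((∃ l : ℕ, l.Prime ∧ l ∣ x * y ∧ (l : ℝ) ≤ w) ∨
          ((p : ℝ) ≤ Real.exp w ∧ (q : ℝ) ≤ Real.exp w))} = (B x : Set ℕ) := by
      ext y
      simp only [hB, Set.mem_ofPred_eq, Finset.coe_filter]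
      constructor
      · intro hy
        exact ⟨(hAPm y).1 hy.1, hy⟩
      · intro hy
        exact hy.2
    rw [h2, Set.ncard_coe_finset] at h1
    refine h1.trans ?_
    calc 3 * (M₂ : ℝ) * Real.exp (-(Real.log M₂ / (t ^ κ) ^ C)) ≤
        3 * (M₂ : ℝ) * Real.exp (-(t / (t ^ κ) ^ C)) :=
          mul_le_mul_of_nonneg_left hexp (by positivity)
      _ = M₂ * (3 * Real.exp (-(t / (t ^ κ) ^ C))) := by ring
      _ ≤ M₂ * (1 / (3 * T)) := mul_le_mul_of_nonneg_left a8 hM20.le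
  set T1 : Finset (ℕ × ℕ) := ((Ioc X (X + M₁)).filter (fun x => 2 ≤ x)).biUnion
    (fun x => (B x).image (fun y => (x, y))) with hT1
  set T2 : Finset (ℕ × ℕ) := R ×ˢ AP with hT2
  have hsub : {v : ℕ × ℕ | X < v.1 ∧ v.1 ≤ X + M₁ ∧
      (∃ j < M₂, v.2 = a + b * j) ∧ 2 ≤ v.1 ∧
      2 ≤ v.2 ∧ Nat.Coprime v.1 v.2 ∧
      ∃ (p q r : ℕ) (z e₁ e₂ : ℤ), 1 ≤ p ∧ q.Prime ∧ 2 ≤ r ∧ (e₁ = 1 ∨ e₁ = -1) ∧
        (e₂ = 1 ∨ e₂ = -1) ∧ e₁ * (v.1 : ℤ) ^ p + e₂ * (v.2 : ℤ) ^ q = z ^ r} ⊆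
      ((T1 ∪ T2 : Finset (ℕ × ℕ)) : Set (ℕ × ℕ)) := by
    rintro ⟨x, y⟩ ⟨hxX, hxM, hyj, hx2, hy2, hxy, p, q, r, z, e₁, e₂, hp, hq, hr, he₁, he₂,
      heq⟩
    simp only at hxX hxM hyj hx2 hy2 hxy heq
    rw [Finset.mem_coe, Finset.mem_union]
    by_cases hl : ∃ l : ℕ, l.Prime ∧ l ∣ x * y ∧ (l : ℝ) ≤ w
    · left
      simp only [hT1, Finset.mem_biUnion, Finset.mem_image, Finset.mem_filter, Finset.mem_Ioc]
      refine ⟨x, ⟨⟨hxX, hxM⟩, hx2⟩, y, ?_, rfl⟩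
      simp only [hB, Finset.mem_filter]
      exact ⟨(hAPm y).1 hyj, hyj, hy2, hxy, p, q, r, z, e₁, e₂, hp, hq, hr, he₁, he₂, heq,
        Or.inl hl⟩
    · right
      simp only [hT2, Finset.mem_product, hR, Finset.mem_filter, Finset.mem_Ioc]
      refine ⟨⟨⟨hxX, hxM⟩, ?_⟩, (hAPm y).1 hyj⟩
      intro l hlp hlx
      by_contra hcon
      exact hl ⟨l, hlp, Dvd.dvd.mul_right hlx y, not_lt.1 hcon⟩
  have hcard := Set.ncard_le_ncard hsub (T1 ∪ T2).finite_toSet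
  rw [Set.ncard_coe_finset] at hcard
  have hcard' := (Nat.cast_le (α := ℝ)).2 hcard
  refine hcard'.trans ?_
  have hT1c : (T1.card : ℝ) ≤ M₁ * (M₂ * (1 / (3 * T))) := by
    calc (T1.card : ℝ) ≤ ((∑ x ∈ (Ioc X (X + M₁)).filter (fun x => 2 ≤ x),
          ((B x).image (fun y => (x, y))).card : ℕ) : ℝ) := by
          exact_mod_cast Finset.card_biUnion_le
      _ = ∑ x ∈ (Ioc X (X + M₁)).filter (fun x => 2 ≤ x),
          (((B x).image (fun y => (x, y))).card : ℝ) := by push_cast; rfl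
      _ ≤ ∑ x ∈ (Ioc X (X + M₁)).filter (fun x => 2 ≤ x), (M₂ * (1 / (3 * T))) := by
          apply Finset.sum_le_sum
          intro x hx
          have h1 : (((B x).image (fun y => (x, y))).card : ℝ) ≤ ((B x).card : ℝ) := by
            exact_mod_cast Finset.card_image_le
          exact h1.trans (hBc x hx)
      _ = (((Ioc X (X + M₁)).filter (fun x => 2 ≤ x)).card : ℝ) * (M₂ * (1 / (3 * T))) := by
          rw [Finset.sum_const, nsmul_eq_mul]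
      _ ≤ M₁ * (M₂ * (1 / (3 * T))) := by
          have h1 : ((Ioc X (X + M₁)).filter (fun x => 2 ≤ x)).card ≤ M₁ := by
            refine (Finset.card_filter_le _ _).trans ?_
            rw [Nat.card_Ioc, Nat.add_sub_cancel_left]
          have h2 : (((Ioc X (X + M₁)).filter (fun x => 2 ≤ x)).card : ℝ) ≤ M₁ := by
            exact_mod_cast h1
          exact mul_le_mul_of_nonneg_right h2 (by positivity)
  have hT2c : (T2.card : ℝ) ≤ 4 * (M₁ / t ^ κ) * M₂ := by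
    rw [hT2, Finset.card_product]
    push_cast
    exact mul_le_mul hRc (by exact_mod_cast hAPc) (Nat.cast_nonneg _) (by positivity)
  have hU : ((T1 ∪ T2).card : ℝ) ≤ T1.card + T2.card := by
    exact_mod_cast Finset.card_union_le T1 T2
  have p3 : 4 * ((M₁ : ℝ) / t ^ κ) * M₂ ≤ M₁ * M₂ * (2 / (3 * T)) := by
    rw [a6]
    have h1 : 4 * ((M₁ : ℝ) / (T * T)) * M₂ = M₁ * M₂ * (4 / (T * T)) := by
      field_simp
    rw [h1]
    apply mul_le_mul_of_nonneg_left _ (by positivity)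
    rw [div_le_div_iff₀ (by positivity) (by positivity)]
    nlinarith
  calc ((T1 ∪ T2).card : ℝ) ≤ T1.card + T2.card := hU
    _ ≤ M₁ * (M₂ * (1 / (3 * T))) + M₁ * M₂ * (2 / (3 * T)) := by linarith
    _ = (M₁ : ℝ) * M₂ / T := by field_simp; norm_num

end Pool.Agent.Lib.MP_509488_nt.Unif
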