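import Pool.Agent.Lib.MP_509488_nt.Unif.All4
import Pool.Agent.Lib.MP_509488_nt.Short81.PairsA

set_option autoImplicit false

/-!
# Uniform bases in short progressions: the final theorems
-/

namespace Pool.Agent.Lib.MP_509488_nt.Unif

theorem allSieveA : SieveUA := sieveUA (supplyU allU8 u9)

theorem allFinalA : Final4A :=
  final4A (ru1 allRB1) (ru2 (rBound2 allTwo allArch)) (ru3 allRB3) allSieveA

theorem allPairsA : Pairs4A := pairs4A allFinalA

end Pool.Agent.Lib.MP_509488_nt.Unif
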