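import Pool.Agent.Lib.MP_509488_nt.Density.Core2

set_option autoImplicit false

/-!
# The counting argument in an arithmetic progression
-/

namespace Pool.Agent.Lib.MP_509488_nt.Density

open Finset Pool.Agent.Lib.MP_d5700b_nt

theorem per_lin {f : ℕ → ℝ} {q : ℕ} (hf : Per f q) (a b : ℕ) : Per (fun x => f (a + b * x)) q := by
  intro t
  simp only
  rw [← hf (a + b * (t % q)), ← hf (a + b * t)]
  congr 1
  rw [Nat.add_mod, Nat.mul_mod, Nat.mod_mod, ← Nat.mul_mod, ← Nat.add_mod]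

theorem sum_lin {f : ℕ → ℝ} {q : ℕ} (hq : 0 < q) (hf : Per f q) (a b : ℕ)
    (hb : Nat.Coprime b q) :
    ∑ x ∈ range q, f (a + b * x) = ∑ x ∈ range q, f x := by
  classical
  have hinj : Set.InjOn (fun x => (a + b * x) % q) (range q : Set ℕ) := by
    intro x hx y hy hxy
    rw [Finset.mem_coe, Finset.mem_range] at hx hy
    simp only at hxy
    have h1 : a + b * x ≡ a + b * y [MOD q] := hxy
    have h2 : b * x ≡ b * y [MOD q] := Nat.ModEq.add_left_cancel' a h1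
    have h3 : x ≡ y [MOD q] := Nat.ModEq.cancel_left_of_coprime (by
      rw [Nat.gcd_comm]; exact hb) h2
    unfold Nat.ModEq at h3
    rwa [Nat.mod_eq_of_lt hx, Nat.mod_eq_of_lt hy] at h3
  have himg : (range q).image (fun x => (a + b * x) % q) = range q := by
    apply Finset.eq_of_subset_of_card_le
    · intro y hy
      rw [Finset.mem_image] at hy
      obtain ⟨x, _, rfl⟩ := hy
      exact Finset.mem_range.2 (Nat.mod_lt _ hq)
    · rw [Finset.card_image_of_injOn hinj]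
  calc ∑ x ∈ range q, f (a + b * x) = ∑ x ∈ range q, f ((a + b * x) % q) :=
        Finset.sum_congr rfl fun x _ => (hf _).symm
    _ = ∑ y ∈ (range q).image (fun x => (a + b * x) % q), f y :=
        (Finset.sum_image hinj).symm
    _ = _ := by rw [himg]

/-- The count for one class in a progression `a + b j`, `j ≤ N`. -/
theorem class_countA (r : ℕ) (hr : 2 ≤ r) (A C s : ℤ) (p a b N X t u : ℕ) (Λ : Finset ℕ) (hX : 1 ≤ X)
    (hΛ : ∀ l ∈ Λ, l.Prime ∧ l ≤ X ∧ r ∣ l - 1 ∧ ¬ (l : ℤ) ∣ A ∧ ¬ (l : ℤ) ∣ C ∧ ¬ (l : ℤ) ∣ s ∧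
      ¬ l ∣ b ∧ 1600 * (Nat.gcd p (l - 1)) ^ 2 ≤ l) (hu : u ≤ t) (ht : t ≤ Λ.card) (S : Finset ℕ)
    (hS : ∀ x ∈ S, x ≤ N ∧ ∀ l ∈ Λ, ∃ z : ZMod l, (A : ZMod l) * ((a + b * x : ℕ) : ZMod l) ^ p +
      (s : ZMod l) = (C : ZMod l) * z ^ r) :
    (S.card : ℝ) ≤ 5 ^ u * (((N : ℝ) + 1) * (1 / 4) ^ u / (t.choose u : ℝ) +
      2 * (X : ℝ) ^ (2 * u)) := by
  classical
  obtain ⟨Λ', hsub, hcard⟩ := Finset.exists_subset_card_eq ht
  have h := large_sieve Λ' (fun l hl => (hΛ l (hsub hl)).1) X hX (fun l hl => (hΛ l (hsub hl)).2.1)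
    (fun l x => hh r A C s p l (a + b * x)) (fun l _ => per_lin (hh_per r A C s p l) a b)
    (fun l x => by unfold hh; split_ifs; exacts [Or.inr rfl, Or.inl rfl])
    (fun l hl => by
      obtain ⟨h1, h2, h3, h4, h5, h6, h7, h8⟩ := hΛ l (hsub hl)
      rw [sum_lin h1.pos (hh_per r A C s p l) a b (((Nat.Prime.coprime_iff_not_dvd h1).2 h7).symm)]
      exact hh_sum r hr A C s p l h1 h3 h4 h5 h6 h8)
    u (by rw [hcard]; exact hu) (N + 1) S
    (fun x hx => ⟨Nat.lt_succ_of_le (hS x hx).1, fun l hl => by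
      unfold hh
      rw [if_pos ((hS x hx).2 l (hsub hl))]⟩)
  rw [hcard] at h
  push_cast at h
  exact h

open scoped Classical in
/-- The counting argument in a progression `a + b x`, `x < N`. -/
theorem core_countA (r k : ℕ) (hr : 2 ≤ r) (a b N L X t u : ℕ) (hL : 1 ≤ L) (hX : 1 ≤ X) (hu : u ≤ t)
    (A C : ℤ) (y : Fin k → ℤ) (Λ : Finset ℕ) (P : ℕ → Prop)
    (hΛ : ∀ l ∈ Λ, l.Prime ∧ l ≤ X ∧ r ∣ l - 1 ∧ l - 1 ∣ L ∧ ¬ (l : ℤ) ∣ A ∧ ¬ (l : ℤ) ∣ C ∧
      (∀ i, ¬ (l : ℤ) ∣ y i) ∧ ¬ l ∣ b)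
    (hP1 : ∀ p, P p → 1 ≤ p)
    (hP : ∀ p, P p → t ≤ (Λ.filter (fun l => 1600 * (Nat.gcd p (l - 1)) ^ 2 ≤ l)).card) :
    (((range N).filter (fun x : ℕ => ∃ (p : ℕ) (e : Fin k → ℕ) (z : ℤ), P p ∧
      A * ((a + b * x : ℕ) : ℤ) ^ p + ∏ i, y i ^ e i = C * z ^ r)).card : ℝ) ≤
      L ^ (k + 1) * (5 ^ u * (((N : ℝ) + 1) * (1 / 4) ^ u / (t.choose u : ℝ) +
      2 * (X : ℝ) ^ (2 * u))) := by
  classical
  set Λp : ℕ → Finset ℕ := fun p => Λ.filter (fun l => 1600 * (Nat.gcd p (l - 1)) ^ 2 ≤ l) with hΛp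
  set I : Finset (ℕ × (Fin k → ℕ)) := (range L) ×ˢ (Fintype.piFinset (fun _ => range L)) with hI
  set Bd : ℕ × (Fin k → ℕ) → Finset ℕ := fun c => (range N).filter (fun x =>
    t ≤ (Λp (c.1 + L)).card ∧ ∀ l ∈ Λp (c.1 + L), ∃ z : ZMod l, (A : ZMod l) *
      ((a + b * x : ℕ) : ZMod l) ^ (c.1 + L) + ((∏ i, y i ^ c.2 i : ℤ) : ZMod l) = (C : ZMod l) * z ^ r)
    with hBd
  have hcover : (range N).filter (fun x : ℕ => ∃ (p : ℕ) (e : Fin k → ℕ) (z : ℤ), P p ∧
      A * ((a + b * x : ℕ) : ℤ) ^ p + ∏ i, y i ^ e i = C * z ^ r) ⊆ I.biUnion Bd := by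
    intro x hx
    rw [mem_filter] at hx
    obtain ⟨hx1, p, e, z, hp, heq⟩ := hx
    rw [mem_biUnion]
    refine ⟨(p % L, fun i => e i % L), ?_, ?_⟩
    · rw [hI, mem_product]
      refine ⟨mem_range.2 (Nat.mod_lt _ (by omega)), ?_⟩
      rw [Fintype.mem_piFinset]
      intro i
      exact mem_range.2 (Nat.mod_lt _ (by omega))
    · have hcong : ∀ l ∈ Λ, p % L + L ≡ p [MOD (l - 1)] := by
        intro l hl
        have h1 := (hΛ l hl).2.2.2.1
        have h2 : p % L + L ≡ p [MOD L] := by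
          unfold Nat.ModEq
          rw [Nat.add_mod_right, Nat.mod_mod]
        exact h2.of_dvd h1
      have hsame : Λp (p % L + L) = Λp p := by
        rw [hΛp]
        apply Finset.filter_congr
        intro l hl
        have h1 : Nat.gcd (p % L + L) (l - 1) = Nat.gcd p (l - 1) := by
          exact (hcong l hl).gcd_eq
        rw [h1]
      rw [hBd]
      simp only [mem_filter]
      rw [hsame]
      refine ⟨hx1, hP p hp, ?_⟩
      intro l hl
      have hlΛ : l ∈ Λ := (mem_filter.1 hl).1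
      obtain ⟨hlp, hlX, hrl, hlL, hlA, hlC, hly, hlb⟩ := hΛ l hlΛ
      refine ⟨(z : ZMod l), ?_⟩
      have h1 : ((a + b * x : ℕ) : ZMod l) ^ (p % L + L) = ((a + b * x : ℕ) : ZMod l) ^ p :=
        pow_eq_pow_zmod l hlp _ _ _ (by omega) (hP1 p hp) (hcong l hlΛ)
      have h2 : ((∏ i, y i ^ (e i % L) : ℤ) : ZMod l) = ((∏ i, y i ^ e i : ℤ) : ZMod l) := by
        push_cast
        apply Finset.prod_congr rfl
        intro i _
        have : Fact l.Prime := ⟨hlp⟩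
        apply pow_eq_pow_zmod' l hlp
        · intro h
          exact hly i ((ZMod.intCast_zmod_eq_zero_iff_dvd _ _).1 h)
        · exact (Nat.mod_modEq (e i) L).of_dvd hlL
      rw [h1, h2]
      have h3 := congrArg (fun a : ℤ => (a : ZMod l)) heq
      push_cast at h3 ⊢
      exact h3
  have hcard : ∀ c ∈ I, ((Bd c).card : ℝ) ≤ 5 ^ u * (((N : ℝ) + 1) * (1 / 4) ^ u /
      (t.choose u : ℝ) + 2 * (X : ℝ) ^ (2 * u)) := by
    intro c _
    by_cases ht : t ≤ (Λp (c.1 + L)).card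
    · apply class_countA r hr A C (∏ i, y i ^ c.2 i) (c.1 + L) a b N X t u (Λp (c.1 + L)) hX _ hu ht
      · intro x hx
        rw [hBd, mem_filter, mem_range] at hx
        exact ⟨hx.1.le, hx.2.2⟩
      · intro l hl
        obtain ⟨hl1, hl2⟩ := mem_filter.1 hl
        obtain ⟨hlp, hlX, hrl, hlL, hlA, hlC, hly, hlb⟩ := hΛ l hl1
        refine ⟨hlp, hlX, hrl, hlA, hlC, ?_, hlb, hl2⟩
        intro h3
        have hlp' : Prime (l : ℤ) := Nat.prime_iff_prime_int.1 hlp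
        obtain ⟨i, _, hi⟩ := (hlp'.dvd_finsetProd_iff _).1 h3
        exact hly i (hlp'.dvd_of_dvd_pow hi)
    · have h1 : Bd c = ∅ := by
        rw [hBd]
        simp only
        rw [Finset.filter_eq_empty_iff]
        intro x _ h
        exact ht h.1
      rw [h1, Finset.card_empty]
      push_cast
      positivity
  have h1 : (((range N).filter (fun x : ℕ => ∃ (p : ℕ) (e : Fin k → ℕ) (z : ℤ), P p ∧
      A * ((a + b * x : ℕ) : ℤ) ^ p + ∏ i, y i ^ e i = C * z ^ r)).card : ℝ) ≤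
      ∑ c ∈ I, ((Bd c).card : ℝ) := by
    exact_mod_cast (Finset.card_le_card hcover).trans Finset.card_biUnion_le
  refine h1.trans ?_
  refine (Finset.sum_le_sum hcard).trans (le_of_eq ?_)
  rw [Finset.sum_const, nsmul_eq_mul, hI, Finset.card_product, Fintype.card_piFinset]
  simp only [card_range, prod_const, card_univ, Fintype.card_fin]
  push_cast
  ring

end Pool.Agent.Lib.MP_509488_nt.Density
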