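import Pool.Agent.Lib.MP_509488_nt.Short81.SieveA
import Pool.Agent.Lib.MP_509488_nt.Unif.UF

set_option autoImplicit false

/-!
# Uniform bases in short progressions: final union bound
-/

namespace Pool.Agent.Lib.MP_509488_nt.Unif

open Finset

/-- One base `x` in `[2, N]`, the other in a progression `a + b j`, `j < M`, inside `[1, N]`. -/
def Final4A : Prop := ∃ C N₀ : ℕ, ∀ N : ℕ, N₀ ≤ N → ∀ w : ℝ, Real.log N ≤ w →
  ∀ x : ℕ, 2 ≤ x → x ≤ N → ∀ a b M : ℕ, 1 ≤ a → 1 ≤ b →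
  (∀ j < M, a + b * j ≤ N) →
  ({y : ℕ | (∃ j < M, y = a + b * j) ∧ 2 ≤ y ∧ Nat.Coprime x y ∧
      ∃ (p q r : ℕ) (z e₁ e₂ : ℤ), 1 ≤ p ∧ q.Prime ∧ 2 ≤ r ∧ (e₁ = 1 ∨ e₁ = -1) ∧
        (e₂ = 1 ∨ e₂ = -1) ∧ e₁ * (x : ℤ) ^ p + e₂ * (y : ℤ) ^ q = z ^ r ∧
        ((∃ l : ℕ, l.Prime ∧ l ∣ x * y ∧ (l : ℝ) ≤ w) ∨
          ((p : ℝ) ≤ Real.exp w ∧ (q : ℝ) ≤ Real.exp w))}.ncard : ℝ) ≤
    3 * M * Real.exp (-(Real.log M / Real.log w ^ C))

open scoped Classical in
/-- the final union bound, uniform in `w`, for short progressions. -/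
theorem final4A (h1 : RU1) (h2 : RU2) (h3 : RU3) (h4 : SieveUA) : Final4A := by
  obtain ⟨A, N₁, hA⟩ := UFM.reduce h1 h2 h3
  obtain ⟨C, N₂, hB⟩ := h4
  obtain ⟨t₀, ht₀1, ht₀⟩ := UFM.real_ineq A C
  obtain ⟨N₃, hN₃⟩ := log_ge (Real.exp t₀)
  refine ⟨C + 3, max (max N₁ N₂) N₃, fun N hN w hw x hx2 hxN a b M ha1 hb1 hYM => ?_⟩
  have hN1 : N₁ ≤ N := le_trans (le_trans (le_max_left _ _) (le_max_left _ _)) hN
  have hN2 : N₂ ≤ N := le_trans (le_trans (le_max_right _ _) (le_max_left _ _)) hN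
  have hN3 := hN₃ N (le_trans (le_max_right _ _) hN)
  have hwt : Real.exp t₀ ≤ w := hN3.trans hw
  have hw0 : 0 < w := lt_of_lt_of_le (Real.exp_pos _) hwt
  have htw : t₀ ≤ Real.log w := by
    rw [Real.le_log_iff_exp_le hw0]; exact hwt
  have ht1 : 1 ≤ Real.log w := ht₀1.trans htw
  have hw2 : 2 ≤ w := by
    have := Real.add_one_le_exp t₀
    linarith
  set bad : ℕ → ℤ × ℤ → Finset ℕ := fun r e => (range M).filter (fun j : ℕ => ∃ (p q : ℕ) (z : ℤ),
    q.Prime ∧ e.1 * (x : ℤ) ^ p + e.2 * ((a + b * j : ℕ) : ℤ) ^ q = z ^ r) with hbad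
  set R : Finset ℕ := (Finset.range (⌊w ^ (A + 1)⌋₊ + 1)).filter Nat.Prime with hR
  set sg : Finset (ℤ × ℤ) := ({1, -1} : Finset ℤ) ×ˢ ({1, -1} : Finset ℤ) with hsg
  set U : Finset ℕ := R.biUnion (fun r => sg.biUnion (fun e => bad r e)) with hU
  have hsub : {y : ℕ | (∃ j < M, y = a + b * j) ∧ 2 ≤ y ∧ Nat.Coprime x y ∧
      ∃ (p q r : ℕ) (z e₁ e₂ : ℤ), 1 ≤ p ∧ q.Prime ∧ 2 ≤ r ∧ (e₁ = 1 ∨ e₁ = -1) ∧
        (e₂ = 1 ∨ e₂ = -1) ∧ e₁ * (x : ℤ) ^ p + e₂ * (y : ℤ) ^ q = z ^ r ∧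
        ((∃ l : ℕ, l.Prime ∧ l ∣ x * y ∧ (l : ℝ) ≤ w) ∨
          ((p : ℝ) ≤ Real.exp w ∧ (q : ℝ) ≤ Real.exp w))} ⊆
      ((U.image (fun j => a + b * j) : Finset ℕ) : Set ℕ) := by
    rintro y ⟨⟨j, hjM, rfl⟩, hy2, hxy, hsol⟩
    obtain ⟨r', e₁', e₂', hr', hrA, he₁', he₂', hs⟩ := hA N hN1 w hw x (a + b * j) hx2 hxN hy2
      (hYM j hjM) hxy hsol
    rw [Finset.mem_coe, Finset.mem_image]
    refine ⟨j, ?_, rfl⟩
    simp only [hU, Finset.mem_biUnion]
    refine ⟨r', ?_, (e₁', e₂'), ?_, ?_⟩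
    · simp only [hR, Finset.mem_filter, Finset.mem_range]
      exact ⟨Nat.lt_succ_of_le (Nat.le_floor hrA), hr'⟩
    · simp only [hsg, Finset.mem_product, Finset.mem_insert, Finset.mem_singleton]
      exact ⟨he₁', he₂'⟩
    · simp only [hbad, Finset.mem_filter, Finset.mem_range]
      exact ⟨hjM, hs⟩
  have hcard := Set.ncard_le_ncard hsub (U.image (fun j => a + b * j)).finite_toSet
  rw [Set.ncard_coe_finset] at hcard
  have hcard' := (Nat.cast_le (α := ℝ)).2 (hcard.trans Finset.card_image_le)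
  have hMN : M ≤ N := by
    rcases Nat.eq_zero_or_pos M with h | h
    · omega
    · have h1 := hYM (M - 1) (by omega)
      have h2 : 1 * (M - 1) ≤ b * (M - 1) := Nat.mul_le_mul_right _ hb1
      omega
  refine hcard'.trans ?_
  rcases le_or_gt (Real.log w ^ (C + 3)) (Real.log M) with hbig | hsmall
  · -- the main case
    have hM1 : 1 < M := by
      by_contra hcon
      have h1 : Real.log (M : ℝ) ≤ 0 :=
        Real.log_nonpos (Nat.cast_nonneg M) (by exact_mod_cast not_lt.1 hcon)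
      have : 0 < Real.log w ^ (C + 3) := by positivity
      linarith
    have hbN : b ≤ N := by
      have := hYM 1 hM1
      omega
    have hW : Real.log N ≤ w ^ (A + 1) := by
      calc Real.log N ≤ w := hw
        _ = w ^ 1 := (pow_one _).symm
        _ ≤ w ^ (A + 1) := pow_le_pow_right₀ (by linarith) (by omega)
    have hlogW : Real.log (w ^ (A + 1)) = (A + 1 : ℝ) * Real.log w := by
      rw [Real.log_pow]; push_cast; ring
    have hUcard : (U.card : ℝ) ≤ (w ^ (A + 1) + 1) * 4 *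
        (3 * M * Real.exp (-(Real.log M / ((A + 1 : ℝ) * Real.log w) ^ C))) := by
      have hb : ∀ r ∈ R, ∀ e ∈ sg, ((bad r e).card : ℝ) ≤
          3 * M * Real.exp (-(Real.log M / ((A + 1 : ℝ) * Real.log w) ^ C)) := by
        intro r hr e he
        simp only [hR, Finset.mem_filter, Finset.mem_range] at hr
        simp only [hsg, Finset.mem_product, Finset.mem_insert, Finset.mem_singleton] at he
        have hrA : (r : ℝ) ≤ w ^ (A + 1) := by
          have h1 : r ≤ ⌊w ^ (A + 1)⌋₊ := Nat.lt_succ_iff.1 hr.1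
          exact (Nat.cast_le.2 h1).trans (Nat.floor_le (by positivity))
        have := hB N hN2 (w ^ (A + 1)) hW x r (by omega) hxN hr.2 hrA e.1 e.2 he.1 he.2 a b M hb1 hbN
          hMN
        rw [hlogW] at this
        exact this
      have hsgc : (sg.card : ℝ) = 4 := by
        have : sg.card = 4 := by simp [hsg]
        rw [this]; norm_num
      have hRc : (R.card : ℝ) ≤ w ^ (A + 1) + 1 := by
        have h1 : R.card ≤ ⌊w ^ (A + 1)⌋₊ + 1 := by
          refine (Finset.card_filter_le _ _).trans ?_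
          rw [Finset.card_range]
        have h2 : ((⌊w ^ (A + 1)⌋₊ : ℕ) : ℝ) ≤ w ^ (A + 1) :=
          Nat.floor_le (by positivity)
        have h3 : (R.card : ℝ) ≤ ((⌊w ^ (A + 1)⌋₊ + 1 : ℕ) : ℝ) := by exact_mod_cast h1
        push_cast at h3
        linarith
      set Bd : ℝ := 3 * M * Real.exp (-(Real.log M / ((A + 1 : ℝ) * Real.log w) ^ C)) with hBd
      have hBd0 : 0 ≤ Bd := by positivity
      calc (U.card : ℝ) ≤ ((∑ r ∈ R, (sg.biUnion (fun e => bad r e)).card : ℕ) : ℝ) := by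
            exact_mod_cast Finset.card_biUnion_le
        _ = ∑ r ∈ R, ((sg.biUnion (fun e => bad r e)).card : ℝ) := by push_cast; rfl
        _ ≤ ∑ r ∈ R, (4 * Bd) := by
            apply Finset.sum_le_sum
            intro r hr
            calc ((sg.biUnion (fun e => bad r e)).card : ℝ)
                ≤ ((∑ e ∈ sg, (bad r e).card : ℕ) : ℝ) := by
                  exact_mod_cast Finset.card_biUnion_le
              _ = ∑ e ∈ sg, ((bad r e).card : ℝ) := by push_cast; rfl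
              _ ≤ ∑ e ∈ sg, Bd := Finset.sum_le_sum (fun e he => hb r hr e he)
              _ = 4 * Bd := by rw [Finset.sum_const, nsmul_eq_mul, hsgc]
        _ = (R.card : ℝ) * (4 * Bd) := by rw [Finset.sum_const, nsmul_eq_mul]
        _ ≤ (w ^ (A + 1) + 1) * (4 * Bd) := by gcongr
        _ = _ := by ring
    have hfin := ht₀ (Real.log w) htw (Real.log M) hbig
    rw [Real.exp_log hw0] at hfin
    calc (U.card : ℝ) ≤ _ := hUcard
      _ = 3 * M * ((w ^ (A + 1) + 1) * 4 *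
          Real.exp (-(Real.log M / ((A + 1 : ℝ) * Real.log w) ^ C))) := by ring
      _ ≤ 3 * M * Real.exp (-(Real.log M / Real.log w ^ (C + 3))) := by gcongr
  · -- the trivial case
    have hUN : (U.card : ℝ) ≤ M := by
      have : U ⊆ range M := by
        intro y hy
        simp only [hU, Finset.mem_biUnion, hbad, Finset.mem_filter] at hy
        obtain ⟨_, _, _, _, h, _⟩ := hy
        exact h
      have := Finset.card_le_card this
      rw [Finset.card_range] at this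
      exact_mod_cast this
    have h5 : Real.log M / Real.log w ^ (C + 3) ≤ 1 := by
      rw [div_le_one (by positivity)]
      exact hsmall.le
    have h6 : Real.exp (-1) ≤ Real.exp (-(Real.log M / Real.log w ^ (C + 3))) :=
      Real.exp_le_exp.2 (by linarith)
    have h7 : (1 : ℝ) / 3 ≤ Real.exp (-1) := by
      rw [Real.exp_neg, one_div]
      apply inv_anti₀ (Real.exp_pos _)
      have := Real.exp_one_lt_d9
      linarith
    have hN0 : (0 : ℝ) ≤ M := Nat.cast_nonneg M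
    nlinarith

end Pool.Agent.Lib.MP_509488_nt.Unif
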