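import Pool.Agent.Lib.MP_509488_nt.Density.Final2
import Pool.Agent.Lib.MP_509488_nt.Short81.CountA

set_option autoImplicit false

/-!
# The final count in an arithmetic progression
-/

namespace Pool.Agent.Lib.MP_509488_nt.Density

open Finset

open scoped Classical in
/-- The quantitative theorem in a progression `a + b j`, `j < N`. -/
theorem main_countA (r : ℕ) (hr : 2 ≤ r) : ∃ η : ℝ, 0 < η ∧ ∀ k : ℕ, ∃ N₀ : ℕ, ∀ N : ℕ, N₀ ≤ N →
    ∀ (A C : ℤ) (y : Fin k → ℤ) (a b : ℕ), A ≠ 0 → C ≠ 0 → (∀ i, y i ≠ 0) → b ≠ 0 →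
      ((|A * C * b * ∏ i, y i| : ℤ) : ℝ) ≤ Real.exp (Real.log N ^ (1 + η)) →
      (((range N).filter (fun j : ℕ => ∃ (p : ℕ) (e : Fin k → ℕ) (z : ℤ),
        (1 ≤ p ∧ (p.divisors.card : ℝ) ^ 5 ≤ Real.log N) ∧
          A * ((a + b * j : ℕ) : ℤ) ^ p + ∏ i, y i ^ e i = C * z ^ r)).card : ℝ) ≤
        (N : ℝ) ^ (1 - η) := by
  obtain ⟨c, hc, h, hh6, Z0, hmany⟩ := many_smooth r (by omega)
  have hhr : (6 : ℝ) ≤ h := by exact_mod_cast hh6
  refine ⟨1 / (32 * h), by positivity, fun k => ?_⟩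
  obtain ⟨B, hBdef⟩ : ∃ B : ℕ, B = 0 := ⟨_, rfl⟩
  have hk0 : (0 : ℝ) ≤ k := Nat.cast_nonneg _
  have hB0 : (0 : ℝ) ≤ B := Nat.cast_nonneg _
  set M : ℝ := 1000 * ((k : ℝ) + 1) * (h : ℝ) ^ 2 * (B + 1) * (1 + 1 / c) with hM
  obtain ⟨Z1, hZ1⟩ := ev_log M
  set s := 2 * h - 1 with hs
  obtain ⟨Zm, hZm⟩ : ∃ Zm : ℕ, Zm = max (max Z0 Z1) (max (2 * s) 4) := ⟨_, rfl⟩
  refine ⟨⌈Real.exp (((Zm : ℝ) + 1) ^ s)⌉₊, ?_⟩
  intro N hN A C y a b hA hC hy hb hQ
  have hNr : Real.exp (((Zm : ℝ) + 1) ^ s) ≤ N := (Nat.le_ceil _).trans (by exact_mod_cast hN)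
  have hNpos : (0 : ℝ) < N := (Real.exp_pos _).trans_le hNr
  set lam := Real.log N with hlam
  have hZm1 : (1 : ℝ) ≤ ((Zm : ℝ) + 1) ^ s := one_le_pow₀ (by
    have : (0 : ℝ) ≤ Zm := Nat.cast_nonneg _
    linarith)
  have hlam1 : ((Zm : ℝ) + 1) ^ s ≤ lam := by
    rw [hlam, Real.le_log_iff_exp_le hNpos]; exact hNr
  have hlam11 : 1 ≤ lam := hZm1.trans hlam1
  have hlampos : 0 < lam := by linarith
  have hexplam : Real.exp lam = N := Real.exp_log hNpos
  obtain ⟨Z, hZle, hZlt⟩ := exists_nat_root s ⌊lam ^ 2⌋₊ (by omega)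
  have hZler : ((Z : ℝ)) ^ s ≤ lam ^ 2 := by
    have h1 : ((Z ^ s : ℕ) : ℝ) ≤ (⌊lam ^ 2⌋₊ : ℝ) := by exact_mod_cast hZle
    have h2 := Nat.floor_le (show 0 ≤ lam ^ 2 by positivity)
    push_cast at h1
    linarith
  have hZltr : lam ^ 2 < ((Z : ℝ) + 1) ^ s := by
    have h1 : ((⌊lam ^ 2⌋₊ + 1 : ℕ) : ℝ) ≤ (((Z + 1) ^ s : ℕ) : ℝ) := by exact_mod_cast hZlt
    have h2 := Nat.lt_floor_add_one (lam ^ 2)
    push_cast at h1
    linarith
  have hZZm : Zm ≤ Z := by
    by_contra hcon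
    push Not at hcon
    have h1 : ((Z : ℝ) + 1) ^ s ≤ ((Zm : ℝ) + 1) ^ s := by
      apply pow_le_pow_left₀ (by positivity)
      have : (Z : ℝ) ≤ Zm := by exact_mod_cast hcon.le
      linarith
    have h2 : lam ≤ lam ^ 2 := le_self_pow₀ hlam11 (by norm_num)
    linarith
  have hZ0 : Z0 ≤ Z := le_trans (by rw [hZm]; exact le_trans (le_max_left _ _) (le_max_left _ _)) hZZm
  have hZZ1 : Z1 ≤ Z := le_trans (by rw [hZm]; exact le_trans (le_max_right _ _) (le_max_left _ _)) hZZm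
  have hZs : 2 * s ≤ Z := le_trans (by rw [hZm]; exact le_trans (le_max_left _ _) (le_max_right _ _)) hZZm
  have hZ4 : 4 ≤ Z := le_trans (by rw [hZm]; exact le_trans (le_max_right _ _) (le_max_right _ _)) hZZm
  have hZr : (4 : ℝ) ≤ Z := by exact_mod_cast hZ4
  have hZpos : (0 : ℝ) < Z := by linarith
  set lz := Real.log Z with hlz
  have hlz1 : 1 ≤ lz := by
    rw [hlz, Real.le_log_iff_exp_le hZpos]
    have := Real.exp_one_lt_d9
    linarith
  set q := (Z : ℝ) ^ (1 / 4 : ℝ) with hq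
  have hq0 : 0 < q := Real.rpow_pos_of_pos hZpos _
  have hlogq : Real.log q = lz / 4 := by
    rw [hq, Real.log_rpow hZpos]; ring
  have hq4 : q ^ 4 = Z := by
    rw [hq, ← Real.rpow_natCast, ← Real.rpow_mul hZpos.le]
    norm_num
  have hMq : M * (lz + 1) ≤ q := hZ1 Z hZZ1
  have hc1 : 0 < 1 / c := by positivity
  have hW1 : (h : ℝ) ≤ ((k : ℝ) + 1) * (h : ℝ) ^ 2 := by
    have h3 : (h : ℝ) ≤ (h : ℝ) ^ 2 := le_self_pow₀ (by linarith) (by norm_num)
    have h4 : (h : ℝ) ^ 2 ≤ ((k : ℝ) + 1) * (h : ℝ) ^ 2 :=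
      le_mul_of_one_le_left (by positivity) (by linarith)
    linarith
  have hB1 : (1 : ℝ) ≤ (B : ℝ) + 1 := by linarith
  have hV1 : (1 : ℝ) ≤ ((B : ℝ) + 1) * (1 + 1 / c) :=
    one_le_mul_of_one_le_of_one_le hB1 (by linarith)
  have hM1 : 1000 * ((k : ℝ) + 1) * (h : ℝ) ^ 2 ≤ M := by
    rw [hM]
    have h2 : 0 ≤ 1000 * ((k : ℝ) + 1) * (h : ℝ) ^ 2 := by positivity
    calc 1000 * ((k : ℝ) + 1) * (h : ℝ) ^ 2 ≤
        1000 * ((k : ℝ) + 1) * (h : ℝ) ^ 2 * (((B : ℝ) + 1) * (1 + 1 / c)) :=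
        le_mul_of_one_le_right h2 hV1
      _ = _ := by ring
  have hM2 : 1000 * h * (1 / c) ≤ M := by
    rw [hM]
    calc 1000 * h * (1 / c) = 1000 * ((h : ℝ) * (1 / c)) := by ring
      _ ≤ 1000 * ((((k : ℝ) + 1) * (h : ℝ) ^ 2) * (((B : ℝ) + 1) * (1 + 1 / c))) := by
        apply mul_le_mul_of_nonneg_left _ (by norm_num)
        apply mul_le_mul hW1 _ hc1.le (by positivity)
        have h1 : (1 : ℝ) + 1 / c ≤ ((B : ℝ) + 1) * (1 + 1 / c) :=
          le_mul_of_one_le_left (by positivity) hB1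
        linarith
      _ = _ := by ring
  have hM3 : 1000 * ((B : ℝ) + 1) * (1 / c) ≤ M := by
    rw [hM]
    calc 1000 * ((B : ℝ) + 1) * (1 / c) = 1000 * (1 * (((B : ℝ) + 1) * (1 / c))) := by ring
      _ ≤ 1000 * ((((k : ℝ) + 1) * (h : ℝ) ^ 2) * (((B : ℝ) + 1) * (1 + 1 / c))) := by
        apply mul_le_mul_of_nonneg_left _ (by norm_num)
        apply mul_le_mul (by linarith) _ (by positivity) (by positivity)
        exact mul_le_mul_of_nonneg_left (by linarith) (by linarith)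
      _ = _ := by ring
  have hM1000 : 1000 ≤ M := by linarith
  have hMpos : 0 < M := by linarith
  have hMqlz : M * lz ≤ q :=
    (mul_le_mul_of_nonneg_left (by linarith) hMpos.le).trans hMq
  have hMle : M ≤ q := (le_mul_of_one_le_right hMpos.le (by linarith)).trans hMq
  have hq1000 : 1000 ≤ q := by linarith
  have hq1 : 1 ≤ q := by linarith
  -- scales
  obtain ⟨X, hX⟩ : ∃ X : ℕ, X = Z ^ h := ⟨_, rfl⟩
  obtain ⟨Y, hY⟩ : ∃ Y : ℕ, Y = Z ^ (h - 1) := ⟨_, rfl⟩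
  have hXr : (X : ℝ) = (Z : ℝ) ^ h := by rw [hX]; push_cast; rfl
  have hYr : (Y : ℝ) = (Z : ℝ) ^ (h - 1) := by rw [hY]; push_cast; rfl
  have hX1 : 1 ≤ X := by rw [hX]; exact Nat.one_le_pow _ _ (by omega)
  have hY1 : 1 ≤ Y := by rw [hY]; exact Nat.one_le_pow _ _ (by omega)
  have hYX : Y ≤ X := by rw [hX, hY]; exact Nat.pow_le_pow_right (by omega) (by omega)
  have hXpos : (0 : ℝ) < X := by exact_mod_cast hX1
  have hlogX : Real.log X = h * lz := by rw [hXr, Real.log_pow]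
  have hLX : (6 : ℝ) ≤ h * lz := by
    calc (6 : ℝ) = 6 * 1 := by norm_num
      _ ≤ h * lz := mul_le_mul hhr hlz1 (by norm_num) (by linarith)
  have hYq : (Y : ℝ) * q ^ 2 ≤ lam := by
    have h1 : ((Y : ℝ) * q ^ 2) ^ 2 ≤ lam ^ 2 := by
      refine le_trans (le_of_eq ?_) hZler
      rw [mul_pow, ← pow_mul, show 2 * 2 = 4 by norm_num, hq4, hYr, ← pow_mul]
      rw [← pow_succ]
      congr 1
      omega
    exact le_of_pow_le_pow_left₀ (by norm_num) hlampos.le h1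
  have hZhalf : lam ^ 2 / 2 ≤ (Z : ℝ) ^ s := by
    have h1 : ((Z : ℝ) + 1) ^ s ≤ 2 * (Z : ℝ) ^ s := by
      have h2 := one_add_mul_le_pow (show (-2 : ℝ) ≤ -(1 / ((Z : ℝ) + 1)) by
        have : 1 / ((Z : ℝ) + 1) ≤ 1 := by
          rw [div_le_one (by positivity)]; linarith
        linarith) s
      have h3 : (s : ℝ) * (1 / ((Z : ℝ) + 1)) ≤ 1 / 2 := by
        rw [mul_one_div, div_le_div_iff₀ (by positivity) (by norm_num)]
        have : (2 * (s : ℝ)) ≤ Z := by exact_mod_cast hZs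
        linarith
      have h4 : (1 : ℝ) + -(1 / ((Z : ℝ) + 1)) = (Z : ℝ) / (Z + 1) := by
        field_simp
        ring
      rw [h4, div_pow, le_div_iff₀ (by positivity)] at h2
      have h5 : 0 < ((Z : ℝ) + 1) ^ s := by positivity
      have h6 : (1 : ℝ) / 2 ≤ 1 + (s : ℝ) * -(1 / ((Z : ℝ) + 1)) := by linarith
      have h7 := mul_le_mul_of_nonneg_right h6 h5.le
      linarith
    linarith
  have hXge : lam * q ^ 2 / 2 ≤ X := by
    have h1 : (lam * q ^ 2 / 2) ^ 2 ≤ (X : ℝ) ^ 2 := by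
      have h2 : (X : ℝ) ^ 2 = Z * (Z : ℝ) ^ s := by
        rw [hXr, ← pow_mul, ← pow_succ']
        congr 1
        omega
      have h3 : (lam * q ^ 2 / 2) ^ 2 = lam ^ 2 / 2 * Z / 2 := by
        rw [← hq4]; ring
      rw [h2, h3]
      have h4 : 0 ≤ lam ^ 2 / 2 * Z := by positivity
      have h5 := mul_le_mul_of_nonneg_left hZhalf hZpos.le
      linarith
    exact le_of_pow_le_pow_left₀ (by norm_num) hXpos.le h1
  -- the parameters u and t
  obtain ⟨u, hu⟩ : ∃ u : ℕ, u = ⌊lam / (4 * (h * lz))⌋₊ := ⟨_, rfl⟩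
  have hu1 : (u : ℝ) ≤ lam / (4 * (h * lz)) := by
    rw [hu]; exact Nat.floor_le (by positivity)
  have hu2 : lam / (4 * (h * lz)) - 1 ≤ u := by
    have := Nat.lt_floor_add_one (lam / (4 * (h * lz)))
    rw [← hu] at this
    linarith
  obtain ⟨t, ht⟩ : ∃ t : ℕ, t = ⌊c / 2 * (X / (h * lz))⌋₊ := ⟨_, rfl⟩
  have ht1 : (t : ℝ) ≤ c / 2 * (X / (h * lz)) := by
    rw [ht]; exact Nat.floor_le (by positivity)
  have hcq : 160 / c * h * lz ≤ q := by
    have h1 : 160 / c * h * lz = 160 * h * (1 / c) * lz := by ring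
    rw [h1]
    have h2 : 160 * h * (1 / c) ≤ M := by
      have : 0 ≤ (h : ℝ) * (1 / c) := by positivity
      linarith
    exact (mul_le_mul_of_nonneg_right h2 (by linarith)).trans hMqlz
  have hXq : q ≤ X := by
    have h1 : q ^ 1 ≤ q ^ 4 := pow_le_pow_right₀ hq1 (by norm_num)
    rw [pow_one, hq4] at h1
    have h2 : (Z : ℝ) ≤ X := by
      rw [hX]
      exact_mod_cast Nat.le_self_pow (by omega) Z
    linarith
  have ht2 : c / 4 * (X / (h * lz)) ≤ t := by
    have h1 := Nat.lt_floor_add_one (c / 2 * (X / (h * lz)))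
    rw [← ht] at h1
    have h2 : 1 ≤ c / 4 * (X / (h * lz)) := by
      have h3 : 160 / c * h * lz ≤ X := hcq.trans hXq
      have h4 : c / 4 * ((160 / c * h * lz) / (h * lz)) = 40 := by
        field_simp
        norm_num
      have h5 : c / 4 * ((160 / c * h * lz) / (h * lz)) ≤ c / 4 * (X / (h * lz)) := by
        apply mul_le_mul_of_nonneg_left _ (by positivity)
        exact div_le_div_of_nonneg_right h3 (by positivity)
      linarith
    linarith
  set κ : ℝ := c * q ^ 2 / 4 with hκ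
  have hcq5 : 16 * ((B : ℝ) + 1) ≤ c * q := by
    have h1 : 1000 * ((B : ℝ) + 1) * (1 / c) ≤ q := hM3.trans hMle
    have h2 : c * (1000 * ((B : ℝ) + 1) * (1 / c)) ≤ c * q := mul_le_mul_of_nonneg_left h1 hc.le
    have h3 : c * (1000 * ((B : ℝ) + 1) * (1 / c)) = 1000 * ((B : ℝ) + 1) := by
      field_simp
    linarith
  have hcq2 : 16 * ((B : ℝ) + 1) * q ≤ c * q ^ 2 := by
    have h1 := mul_le_mul_of_nonneg_right hcq5 hq0.le
    calc 16 * ((B : ℝ) + 1) * q ≤ c * q * q := h1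
      _ = c * q ^ 2 := by ring
  have hBq : ((B : ℝ) + 1) * 1 ≤ ((B : ℝ) + 1) * q := mul_le_mul_of_nonneg_left hq1 (by linarith)
  have hqB : 1 * q ≤ ((B : ℝ) + 1) * q := mul_le_mul_of_nonneg_right hB1 hq0.le
  have hκq : 5 * q ≤ 4 * κ := by
    rw [hκ]
    linarith
  have hκ1 : 1 ≤ κ := by linarith
  have hut2 : 2 * κ * u ≤ t := by
    refine le_trans ?_ ht2
    have h1 : 2 * κ * u ≤ 2 * κ * (lam / (4 * (h * lz))) :=
      mul_le_mul_of_nonneg_left hu1 (by linarith)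
    have h2 : 2 * κ * (lam / (4 * (h * lz))) = c / 4 * ((lam * q ^ 2 / 2) / (h * lz)) := by
      rw [hκ]
      field_simp
      norm_num
    rw [h2] at h1
    refine h1.trans ?_
    apply mul_le_mul_of_nonneg_left _ (by positivity)
    exact div_le_div_of_nonneg_right hXge (by positivity)
  have hut : u ≤ t := by
    have : (u : ℝ) ≤ t := by
      have h1 : (0 : ℝ) ≤ u := Nat.cast_nonneg _
      have h2 : (u : ℝ) ≤ 2 * κ * u := le_mul_of_one_le_left h1 (by linarith)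
      linarith
    exact_mod_cast this
  have hchoose := choose_lower t u κ hκ1 hut2
  -- primes dividing Q
  set Q : ℤ := A * C * b * ∏ i, y i with hQdef
  have hQ0 : Q ≠ 0 := mul_ne_zero (mul_ne_zero (mul_ne_zero hA hC) (by exact_mod_cast hb))
    (Finset.prod_ne_zero_iff.2 (fun i _ => hy i))
  have hfew := few_divide r h Z Q hQ0 (by omega) (Real.exp (lam ^ (1 + 1 / (32 * (h : ℝ))))) hQ
  rw [Real.log_exp, ← hX, hlogX] at hfew
  have hqlam : lam ^ (1 / (32 * (h : ℝ))) ≤ q := by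
    have hs0 : (0 : ℝ) < 4 * s := by
      have : 0 < s := by omega
      positivity
    have e1 : lam ≤ q ^ (4 * s) := by
      rw [pow_mul, hq4]
      have e2 : lam * 2 ≤ lam * lam := mul_le_mul_of_nonneg_left (by
        have e3 : (2 : ℝ) ≤ ((Zm : ℝ) + 1) ^ s := by
          have e4 : (4 : ℝ) ≤ Zm := by
            have : 4 ≤ Zm := by
              rw [hZm]
              exact le_trans (le_max_right _ _) (le_max_right _ _)
            exact_mod_cast this
          have e5 : ((Zm : ℝ) + 1) ^ 1 ≤ ((Zm : ℝ) + 1) ^ s :=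
            pow_le_pow_right₀ (by linarith) (by omega)
          rw [pow_one] at e5
          linarith
        linarith) hlampos.le
      have e3 : lam ^ 2 = lam * lam := by ring
      linarith
    have e6 : lam ^ (1 / (4 * (s : ℝ))) ≤ q := by
      have e7 : lam ^ (1 / (4 * (s : ℝ))) ≤ (q ^ (4 * s)) ^ (1 / (4 * (s : ℝ))) :=
        Real.rpow_le_rpow hlampos.le e1 (by positivity)
      have e8 : (q ^ (4 * s)) ^ (1 / (4 * (s : ℝ))) = q := by
        rw [← Real.rpow_natCast, ← Real.rpow_mul hq0.le]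
        push_cast
        rw [mul_one_div_cancel hs0.ne', Real.rpow_one]
      rwa [e8] at e7
    refine le_trans (Real.rpow_le_rpow_of_exponent_le hlam11 ?_) e6
    apply one_div_le_one_div_of_le hs0
    have e9 : (s : ℝ) ≤ 2 * h := by
      have : s ≤ 2 * h := by omega
      exact_mod_cast this
    linarith
  have hlamT : lam ^ (1 + 1 / (32 * (h : ℝ))) ≤ lam * q := by
    rw [Real.rpow_add hlampos, Real.rpow_one]
    exact mul_le_mul_of_nonneg_left hqlam hlampos.le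
  have hmanyZ := hmany Z hZ0
  rw [← hX, hlogX] at hmanyZ
  set SP := smoothPrimes r h Z with hSP
  have hSPprop : ∀ l ∈ SP, l.Prime ∧ r ∣ l - 1 ∧ l - 1 ∣ (Y.factorial) ^ 2 ∧ l ≤ X ∧ X < l ^ 2 := by
    intro l hl
    rw [hSP] at hl
    unfold smoothPrimes at hl
    rw [mem_filter, mem_Icc, ← hX, ← hY] at hl
    obtain ⟨⟨h2, h3⟩, h4, h5, h6, h7⟩ := hl
    exact ⟨h4, h5, h7, h3, h6⟩
  set Λ := SP.filter (fun l : ℕ => ¬ (l : ℤ) ∣ Q) with hΛ
  have hΛcard : 3 / 4 * c * (X / (h * lz)) ≤ Λ.card := by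
    have h1 := Finset.card_filter_add_card_filter_not (s := SP) (fun l : ℕ => (l : ℤ) ∣ Q)
    have h2 : ((SP.filter (fun l : ℕ => (l : ℤ) ∣ Q)).card : ℝ) + (Λ.card : ℝ) = (SP.card : ℝ) := by
      exact_mod_cast h1
    have h3 : ((SP.filter (fun l : ℕ => (l : ℤ) ∣ Q)).card : ℝ) ≤ 1 / 4 * c * (X / (h * lz)) := by
      rw [← mul_div_assoc, le_div_iff₀ (by positivity)]
      refine hfew.trans ?_
      have h4 : 8 * (lam * q) ≤ c * X := by
        have h5 : c * (lam * q ^ 2 / 2) ≤ c * X := mul_le_mul_of_nonneg_left hXge hc.le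
        have h6 : 16 * q ≤ c * q ^ 2 := by
          have h8 : 16 * (1 * q) ≤ 16 * (((B : ℝ) + 1) * q) := by linarith
          linarith
        have h7 : 16 * q * lam ≤ c * q ^ 2 * lam := mul_le_mul_of_nonneg_right h6 hlampos.le
        linarith
      linarith
    linarith
  have hcore := core_countA r k hr a b N ((Y.factorial) ^ 2) X t u
    (Nat.one_le_iff_ne_zero.2 (pow_ne_zero _ (Nat.factorial_ne_zero _))) hX1 hut A C y Λ
    (fun p => 1 ≤ p ∧ (p.divisors.card : ℝ) ^ 5 ≤ Real.log N)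
    (by
      intro l hl
      obtain ⟨h0, h6⟩ := mem_filter.1 hl
      obtain ⟨h1, h2, h3, h4, h5⟩ := hSPprop l h0
      refine ⟨h1, h4, h2, h3, ?_, ?_, ?_, ?_⟩
      · intro h
        exact h6 (Dvd.dvd.mul_right (Dvd.dvd.mul_right (Dvd.dvd.mul_right h _) _) _)
      · intro h
        exact h6 (Dvd.dvd.mul_right (Dvd.dvd.mul_right (Dvd.dvd.mul_left h _) _) _)
      · intro i h
        exact h6 (Dvd.dvd.mul_left (h.trans (Finset.dvd_prod_of_mem y (mem_univ i))) _)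
      · intro h
        exact h6 (Dvd.dvd.mul_right (Dvd.dvd.mul_left (by exact_mod_cast h) _) _))
    (fun p hp => hp.1)
    (by
      intro p hp
      have h1 := Finset.card_filter_add_card_filter_not (s := Λ)
        (fun l : ℕ => 1600 * (Nat.gcd p (l - 1)) ^ 2 ≤ l)
      have h2 := few_bad X p hp.1 Λ (fun l hl =>
        ⟨(hSPprop l (mem_filter.1 hl).1).1, (hSPprop l (mem_filter.1 hl).1).2.2.2.1,
          (hSPprop l (mem_filter.1 hl).1).2.2.2.2⟩) (h * lz) (by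
            rw [← hlogX, Real.exp_log hXpos])
      have hlamX : lam ≤ X := by
        have h4 : lam * 1 ≤ lam * (q ^ 2 / 2) := by
          apply mul_le_mul_of_nonneg_left _ hlampos.le
          have h5 : q ≤ q ^ 2 := le_self_pow₀ hq1 (by norm_num)
          linarith
        linarith
      have h3 : (p.divisors.card : ℝ) ≤ Real.exp (h * lz / 5) := by
        have h4 : (p.divisors.card : ℝ) ^ 5 ≤ (Real.exp (h * lz / 5)) ^ 5 := by
          rw [← Real.exp_nat_mul]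
          have : ((5 : ℕ) : ℝ) * (h * lz / 5) = h * lz := by push_cast; ring
          rw [this, ← hlogX, Real.exp_log hXpos]
          exact hp.2.trans hlamX
        exact le_of_pow_le_pow_left₀ (by norm_num) (Real.exp_pos _).le h4
      have h5 := bad_ineq c h lz q X hc hhr hlz1 hcq hlogq hq0 hlogX hXpos
      have h6 : ((Λ.filter (fun l => ¬ (1600 * (Nat.gcd p (l - 1)) ^ 2 ≤ l))).card : ℝ) ≤
          c / 4 * (X / (h * lz)) := by
        refine h2.trans (le_trans ?_ h5)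
        exact mul_le_mul_of_nonneg_right h3 (by positivity)
      have h7 : ((Λ.filter (fun l => 1600 * (Nat.gcd p (l - 1)) ^ 2 ≤ l)).card : ℝ) +
          ((Λ.filter (fun l => ¬ (1600 * (Nat.gcd p (l - 1)) ^ 2 ≤ l))).card : ℝ) =
          (Λ.card : ℝ) := by exact_mod_cast h1
      have h8 : (t : ℝ) ≤ ((Λ.filter (fun l => 1600 * (Nat.gcd p (l - 1)) ^ 2 ≤ l)).card : ℝ) := by
        linarith
      exact_mod_cast h8)
  refine hcore.trans ?_
  -- the final inequality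
  have hfin := final_ineq h k q lz lam Y X u (t.choose u) κ hhr hk0 hlz1
    ((mul_le_mul_of_nonneg_right hM1 (by linarith)).trans hMq) hlogq hYq
    (by exact_mod_cast hY1) hlogX hXpos (Nat.cast_nonneg _) hu1 hu2 hκq
    (by rw [Real.rpow_natCast]; exact hchoose)
  have hLpos : (0 : ℝ) < (((Y.factorial) ^ 2 : ℕ) : ℝ) := by
    have : 0 < (Y.factorial) ^ 2 := Nat.pow_pos (Nat.factorial_pos _)
    exact_mod_cast this
  have hLexp : ((((Y.factorial) ^ 2 : ℕ)) : ℝ) ^ (k + 1) ≤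
      Real.exp (((k : ℝ) + 1) * (2 * (Y * (h * lz)))) := by
    rw [← Real.exp_log (show (0 : ℝ) < ((((Y.factorial) ^ 2 : ℕ)) : ℝ) ^ (k + 1) by positivity),
      Real.log_pow]
    apply Real.exp_le_exp.2
    have h1 := log_factorial_sq Y X hYX
    rw [hlogX] at h1
    push_cast at h1 ⊢
    exact mul_le_mul_of_nonneg_left h1 (by linarith)
  have hrhs : (N : ℝ) ^ (1 - 1 / (32 * (h : ℝ))) = Real.exp (lam * (1 - 1 / (32 * h))) := by
    rw [Real.rpow_def_of_pos hNpos]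
  rw [hrhs]
  refine le_trans ?_ hfin
  rw [hexplam]
  have h9 : (X : ℝ) ^ (2 * (u : ℝ)) = (X : ℝ) ^ (2 * u) := by
    rw [← Real.rpow_natCast]
    push_cast
    rfl
  rw [h9, Real.rpow_natCast, Real.rpow_natCast]
  push_cast at hLexp ⊢
  apply mul_le_mul_of_nonneg_right hLexp
  positivity

end Pool.Agent.Lib.MP_509488_nt.Density
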