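import Pool.Agent.Lib.MP_509488_nt.Short81.CountA
import Pool.Agent.Lib.MP_509488_nt.Unif.US

set_option autoImplicit false

/-!
# Uniform bases in short progressions: the sieve count for one prime `r`
-/

namespace Pool.Agent.Lib.MP_509488_nt.Unif

open Finset Filter SieveX SieveXU

open scoped Classical in
/-- The count for one prime `r ≤ W`, in a progression `a + b j`, `j < M`, with `b, M ≤ N`. -/
def SieveUA : Prop := ∃ C N₀ : ℕ, ∀ N : ℕ, N₀ ≤ N → ∀ W : ℝ, Real.log N ≤ W → ∀ x r : ℕ, 1 ≤ x →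
  x ≤ N → r.Prime → (r : ℝ) ≤ W → ∀ e₁ e₂ : ℤ, (e₁ = 1 ∨ e₁ = -1) → (e₂ = 1 ∨ e₂ = -1) →
  ∀ a b M : ℕ, 1 ≤ b → b ≤ N → M ≤ N → (((range M).filter (fun j : ℕ => ∃ (p q : ℕ) (z : ℤ),
    q.Prime ∧ e₁ * (x : ℤ) ^ p + e₂ * ((a + b * j : ℕ) : ℤ) ^ q = z ^ r)).card : ℝ) ≤
      3 * M * Real.exp (-(Real.log M / Real.log W ^ C))

open scoped Classical in
theorem sieveUA (h : SupplyU) : SieveUA := by
  obtain ⟨T₀, hT₀, hS⟩ := h
  have hlog : Tendsto (fun N : ℕ => Real.log (N : ℝ)) atTop atTop :=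
    Real.tendsto_log_atTop.comp tendsto_natCast_atTop_atTop
  have hll : Tendsto (fun N : ℕ => Real.log (Real.log (N : ℝ))) atTop atTop :=
    Real.tendsto_log_atTop.comp hlog
  obtain ⟨N₀, hN₀⟩ := eventually_atTop.1 (((hlog.eventually_ge_atTop 1).and
    (hll.eventually_ge_atTop (max T₀ 40))).and (eventually_ge_atTop (1 : ℕ)))
  refine ⟨900, N₀, ?_⟩
  intro N hN W hW x r hx hxN hr hrW e₁ e₂ he₁ he₂ a b M hb1 hbN hMN
  obtain ⟨⟨F5, F4⟩, F6⟩ := hN₀ N hN
  set LN : ℝ := Real.log N with hLN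
  rcases Nat.eq_zero_or_pos M with hM0 | hM0
  · subst hM0
    simp
  have hM1 : (1 : ℝ) ≤ M := by exact_mod_cast hM0
  have hMpos : (0 : ℝ) < M := by linarith
  set LM : ℝ := Real.log M with hLM
  have hLMN : LM ≤ LN := Real.log_le_log hMpos (by exact_mod_cast hMN)
  have hLN0 : 0 < LN := by linarith
  have hN0 : (0 : ℝ) < N := by exact_mod_cast F6
  have hW0 : 0 < W := by linarith
  set S : ℝ := Real.log W with hSd
  have hSL : Real.log LN ≤ S := Real.log_le_log hLN0 hW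
  have hS40 : 40 ≤ S := (le_max_right T₀ 40).trans (F4.trans hSL)
  have hST : T₀ ≤ S := (le_max_left T₀ 40).trans (F4.trans hSL)
  have hWe : W = Real.exp S := (Real.exp_log hW0).symm
  have hcard : (((range M).filter (fun j : ℕ => ∃ (p q : ℕ) (z : ℤ), q.Prime ∧
      e₁ * (x : ℤ) ^ p + e₂ * ((a + b * j : ℕ) : ℤ) ^ q = z ^ r)).card : ℝ) ≤ M := by
    have h1 := Finset.card_filter_le (range M) (fun j : ℕ => ∃ (p q : ℕ) (z : ℤ), q.Prime ∧
      e₁ * (x : ℤ) ^ p + e₂ * ((a + b * j : ℕ) : ℤ) ^ q = z ^ r)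
    rw [Finset.card_range] at h1
    exact_mod_cast h1
  by_cases hcase : LM ≤ S ^ 900
  · -- the trivial case
    refine hcard.trans ?_
    have h1 : LM / S ^ 900 ≤ 1 := by
      rw [div_le_one (by positivity)]
      exact hcase
    have h2 : Real.exp (-1) ≤ Real.exp (-(LM / S ^ 900)) := Real.exp_le_exp.2 (by linarith)
    have h3 : (1 : ℝ) / 3 ≤ Real.exp (-1) := by
      rw [Real.exp_neg, inv_eq_one_div]
      have h4 := Real.exp_one_lt_d9
      have h5 := Real.exp_pos 1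
      apply one_div_le_one_div_of_le h5
      linarith
    have h6 : (3 * (M : ℝ)) * (1 / 3) ≤ 3 * M * Real.exp (-(LM / S ^ 900)) :=
      mul_le_mul_of_nonneg_left (h3.trans h2) (by linarith)
    linarith
  push Not at hcase
  -- the parameter T
  obtain ⟨T, hT⟩ : ∃ T : ℝ, T = 10 * (1 + S) ^ 2 := ⟨_, rfl⟩
  obtain ⟨hST', hT100, hTS, hSTe, hlT⟩ := numS S T hS40 hT
  clear hT
  have hT0 : T₀ ≤ T := hST.trans hST'
  have hTpos : 0 < T := by linarith
  have hT300 : T ^ 300 ≤ S ^ 900 := by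
    calc T ^ 300 ≤ (S ^ 3) ^ 300 := pow_le_pow_left₀ hTpos.le hTS 300
      _ = S ^ 900 := by rw [← pow_mul]
  have hLT : T ^ 300 ≤ LM := hT300.trans hcase.le
  have hLM0 : 0 < LM := lt_of_lt_of_le (by positivity) hLT
  have hrT : (1 + Real.log r) ^ 2 ≤ T :=
    hlT _ (Real.log_nonneg (by exact_mod_cast hr.one_lt.le))
      (Real.log_le_log (by exact_mod_cast hr.pos) hrW)
  obtain ⟨P, Q, L, hL1, hL, hPc, hQc, hPQ, hgcd⟩ := hS T hT0 r hr hrT
  -- many primes
  have hB4 : 4 * LN ≤ Real.exp (T / 10) := numB S T LN hSTe (by rw [← hWe]; exact hW)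
  have hPc' : 4 * LN ≤ (P.card : ℝ) := hB4.trans hPc
  have hQc' : 4 * LN ≤ (Q.card : ℝ) := hB4.trans hQc
  -- abbreviations
  obtain ⟨hA1, hB0, h220, h220', hT20⟩ := numT T hT100
  obtain ⟨F3, F7⟩ := f3 T hT20 hTpos.le
  have hAT : T ^ 80 * T ^ 220 = T ^ 300 := by rw [← pow_add]
  have hS900 : 0 < T ^ 300 := by positivity
  obtain ⟨A, hA⟩ : ∃ A : ℝ, A = T ^ 80 := ⟨_, rfl⟩
  obtain ⟨B, hB⟩ : ∃ B : ℝ, B = T ^ 120 := ⟨_, rfl⟩
  rw [← hA] at hA1 hPQ hAT
  rw [← hB] at hB0 hL h220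
  have hA0 : 0 < A := by linarith
  obtain ⟨K, hK⟩ : ∃ K : ℝ, K = LM / A := ⟨_, rfl⟩
  have hKA : K * A = LM := by rw [hK]; field_simp
  have hK220 : T ^ 220 ≤ K := by
    rw [hK, le_div_iff₀ hA0, mul_comm, hAT]
    exact hLT
  have hKB : 100 * B ≤ K := h220.trans hK220
  have hK100 : 100 ≤ K := h220'.trans hK220
  have hKLM : K ≤ LM / 100 := by
    rw [hK]
    exact div_le_div_of_nonneg_left hLM0.le (by norm_num) hA1
  obtain ⟨D, hD⟩ : ∃ D : ℝ, D = LM / S ^ 900 := ⟨_, rfl⟩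
  have hDK : D ≤ K / 100 := by
    have h1 : D ≤ LM / T ^ 300 := by
      rw [hD]
      exact div_le_div_of_nonneg_left hLM0.le hS900 hT300
    have h2 : LM / T ^ 300 = K / T ^ 220 := by
      rw [← hAT, hK, div_div]
    have h3 : K / T ^ 220 ≤ K / 100 :=
      div_le_div_of_nonneg_left (by linarith) (by norm_num) h220'
    linarith
  rw [← hD]
  -- parameters
  obtain ⟨X, hX⟩ : ∃ X : ℕ, X = ⌊Real.exp A⌋₊ := ⟨_, rfl⟩
  have hX1 : 1 ≤ X := by
    rw [hX, Nat.one_le_floor_iff]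
    exact Real.one_le_exp hA0.le
  have hXle : (X : ℝ) ≤ Real.exp A := by
    rw [hX]
    exact Nat.floor_le (Real.exp_pos _).le
  obtain ⟨u, hu⟩ : ∃ u : ℕ, u = ⌊K / 16⌋₊ := ⟨_, rfl⟩
  have hule : (u : ℝ) ≤ K / 16 := by
    rw [hu]
    exact Nat.floor_le (by linarith)
  have hult : K / 16 < u + 1 := by
    rw [hu]
    exact Nat.lt_floor_add_one _
  obtain ⟨t, ht⟩ : ∃ t : ℕ, t = ⌈LN⌉₊ := ⟨_, rfl⟩
  have htle : LN ≤ t := by
    rw [ht]
    exact Nat.le_ceil _
  have htlt : (t : ℝ) < LN + 1 := by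
    rw [ht]
    exact Nat.ceil_lt_add_one hLN0.le
  have hu0 : (0 : ℝ) ≤ u := Nat.cast_nonneg _
  have hut : u ≤ t := by
    have : (u : ℝ) ≤ t := by linarith
    exact_mod_cast this
  -- few primes divide x
  have hfew : ∀ S' : Finset ℕ, S' ⊆ P ∪ Q → 4 * LN ≤ (S'.card : ℝ) →
      t ≤ (S'.filter (fun l => ¬ l ∣ x * b)).card := by
    intro S' hSs hSc
    have h1 := few_div S' (x * b) (Nat.mul_pos hx hb1) (fun l hl => (hPQ l (hSs hl)).1) (T ^ 20)
      (fun l hl => (hPQ l (hSs hl)).2.2.2.1)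
    have h2 : Real.log ((x * b : ℕ) : ℝ) ≤ 2 * LN := by
      have g1 : Real.log x ≤ LN := Real.log_le_log (by exact_mod_cast hx) (by exact_mod_cast hxN)
      have g2 : Real.log b ≤ LN := Real.log_le_log (by exact_mod_cast hb1) (by exact_mod_cast hbN)
      have hx0 : (x : ℝ) ≠ 0 := by
        have : x ≠ 0 := by omega
        exact_mod_cast this
      have hb0 : (b : ℝ) ≠ 0 := by
        have : b ≠ 0 := by omega
        exact_mod_cast this
      rw [Nat.cast_mul, Real.log_mul hx0 hb0]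
      linarith
    have h3 : ((S'.filter (fun l => l ∣ x * b)).card : ℝ) ≤ LN := by
      have h4 : (0 : ℝ) ≤ ((S'.filter (fun l => l ∣ x * b)).card : ℝ) := Nat.cast_nonneg _
      have h5 : (2 : ℝ) ≤ T ^ 20 := by linarith
      have h6 := mul_le_mul_of_nonneg_left h5 h4
      linarith
    have h4 : (S'.filter (fun l => l ∣ x * b)).card + (S'.filter (fun l => ¬ l ∣ x * b)).card =
        S'.card :=
      Finset.card_filter_add_card_filter_not _
    have h5 : ((S'.filter (fun l => l ∣ x * b)).card : ℝ) +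
        ((S'.filter (fun l => ¬ l ∣ x * b)).card : ℝ) = (S'.card : ℝ) := by exact_mod_cast h4
    have h6 : (t : ℝ) ≤ ((S'.filter (fun l => ¬ l ∣ x * b)).card : ℝ) := by linarith
    exact_mod_cast h6
  set V : Finset ℕ := (P ∪ Q).filter (fun l => ¬ l ∣ x * b) with hV
  have hVm : ∀ l ∈ V, l.Prime ∧ r ∣ l - 1 ∧ l - 1 ∣ L ∧ Real.exp (T ^ 20) ≤ l ∧
      (l : ℝ) ≤ Real.exp A ∧ ¬ l ∣ x ∧ ¬ l ∣ b := by
    intro l hl
    obtain ⟨h1, h2⟩ := mem_filter.1 hl
    obtain ⟨g1, g2, g3, g4, g5⟩ := hPQ l h1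
    exact ⟨g1, g2, g3, g4, g5, fun h => h2 (h.mul_right b), fun h => h2 (h.mul_left x)⟩
  have hun : ∀ e : ℤ, (e = 1 ∨ e = -1) → ∀ l : ℕ, l.Prime → ¬ (l : ℤ) ∣ e := by
    intro e he l hl hd
    have h1 : (l : ℤ) ∣ 1 := by
      rcases he with rfl | rfl
      · exact hd
      · exact (Int.dvd_neg).1 hd
    have h2 : l ∣ 1 := by exact_mod_cast h1
    exact hl.one_lt.ne' (Nat.dvd_one.1 h2)
  have hee : e₁ * e₂ = 1 ∨ e₁ * e₂ = -1 := by
    rcases he₁ with rfl | rfl <;> rcases he₂ with rfl | rfl <;> simp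
  have hcore := Density.core_countA r 1 hr.two_le a b M L X t u hL1 hX1 hut (e₁ * e₂) e₁
    (fun _ => (x : ℤ)) V Nat.Prime
    (by
      intro l hl
      obtain ⟨g1, g2, g3, g4, g5, g6, g7⟩ := hVm l hl
      refine ⟨g1, by rw [hX]; exact Nat.le_floor g5, g2, g3, hun _ hee l g1, hun _ he₁ l g1, ?_, g7⟩
      intro i hd
      exact g6 (by exact_mod_cast hd))
    (fun p hp => hp.one_lt.le)
    (by
      intro q hq
      by_cases hqC : (q : ℝ) ≤ Real.exp T
      · refine (hfew (P ∪ Q) (Finset.Subset.refl _) ?_).trans ?_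
        · exact hPc'.trans (by exact_mod_cast Finset.card_le_card Finset.subset_union_left)
        · apply Finset.card_le_card
          intro l hl
          rw [mem_filter]
          refine ⟨hl, ?_⟩
          have g4 := (hVm l hl).2.2.2.1
          have g7 : ((Nat.gcd q (l - 1) : ℕ) : ℝ) ≤ Real.exp T := by
            refine le_trans ?_ hqC
            exact_mod_cast Nat.gcd_le_left _ hq.pos
          have g8 : ((1600 * (Nat.gcd q (l - 1)) ^ 2 : ℕ) : ℝ) ≤ (l : ℝ) := by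
            push_cast
            calc (1600 : ℝ) * ((Nat.gcd q (l - 1) : ℕ) : ℝ) ^ 2 ≤ 1600 * Real.exp T ^ 2 := by
                  gcongr
              _ ≤ Real.exp (T ^ 20) := F3
              _ ≤ l := g4
          exact_mod_cast g8
      · push Not at hqC
        have key : ∀ S' : Finset ℕ, S' ⊆ P ∪ Q → 4 * LN ≤ (S'.card : ℝ) →
            (∀ l ∈ S', ¬ q ∣ l - 1) →
            t ≤ (V.filter (fun l => 1600 * (Nat.gcd q (l - 1)) ^ 2 ≤ l)).card := by
          intro S' hSs hSc hSq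
          refine (hfew S' hSs hSc).trans ?_
          apply Finset.card_le_card
          intro l hl
          obtain ⟨hl1, hl2⟩ := mem_filter.1 hl
          have hlV : l ∈ V := by
            rw [hV, mem_filter]
            exact ⟨hSs hl1, hl2⟩
          rw [mem_filter]
          refine ⟨hlV, ?_⟩
          have g4 := (hVm l hlV).2.2.2.1
          have g5 : Nat.gcd q (l - 1) = 1 := (Nat.Prime.coprime_iff_not_dvd hq).2 (hSq l hl1)
          rw [g5]
          have g6 : ((1600 * 1 ^ 2 : ℕ) : ℝ) ≤ (l : ℝ) := by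
            have g7 : ((1600 * 1 ^ 2 : ℕ) : ℝ) = 1600 := by norm_num
            rw [g7]
            exact F7.trans g4
          exact_mod_cast g6
        rcases hgcd q hq hqC with h1 | h1
        · exact key P Finset.subset_union_left hPc' h1
        · exact key Q Finset.subset_union_right hQc' h1)
  -- compare the sets
  have hset : (((range M).filter (fun y : ℕ => ∃ (p q : ℕ) (z : ℤ), q.Prime ∧
      e₁ * (x : ℤ) ^ p + e₂ * ((a + b * y : ℕ) : ℤ) ^ q = z ^ r)).card : ℝ) ≤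
      (((range M).filter (fun y : ℕ => ∃ (p : ℕ) (e : Fin 1 → ℕ) (z : ℤ), p.Prime ∧
      (e₁ * e₂) * ((a + b * y : ℕ) : ℤ) ^ p + ∏ i, (fun _ => (x : ℤ)) i ^ e i = e₁ * z ^ r)).card : ℝ) := by
    have : ((range M).filter (fun y : ℕ => ∃ (p q : ℕ) (z : ℤ), q.Prime ∧
      e₁ * (x : ℤ) ^ p + e₂ * ((a + b * y : ℕ) : ℤ) ^ q = z ^ r)) ⊆
      ((range M).filter (fun y : ℕ => ∃ (p : ℕ) (e : Fin 1 → ℕ) (z : ℤ), p.Prime ∧
      (e₁ * e₂) * ((a + b * y : ℕ) : ℤ) ^ p + ∏ i, (fun _ => (x : ℤ)) i ^ e i = e₁ * z ^ r)) := by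
      intro y hy
      rw [mem_filter] at hy ⊢
      obtain ⟨hy1, p, q, z, hq, heq⟩ := hy
      refine ⟨hy1, q, fun _ => p, z, hq, ?_⟩
      have h1 : e₁ * e₁ = 1 := by rcases he₁ with rfl | rfl <;> norm_num
      rw [← heq]
      simp only [Finset.univ_unique, Finset.prod_const, Finset.card_singleton, pow_one]
      linear_combination (-(x : ℤ) ^ p) * h1
    exact_mod_cast Finset.card_le_card this
  refine hset.trans (hcore.trans ?_)
  -- numerics
  have hfin := fin M L X t u LM A B D K (Real.exp_log hMpos).symm hM1 hL hXle hA1 hKA hKB hK100 hDK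
    hKLM hule hult (hLMN.trans htle)
  have hpos : 0 ≤ M * Real.exp (-D) := by positivity
  calc _ = (L : ℝ) ^ (1 + 1) * ((5 : ℝ) ^ u * (((M : ℝ) + 1) * (1 / 4) ^ u / (t.choose u : ℝ))) +
        (L : ℝ) ^ (1 + 1) * ((5 : ℝ) ^ u * (2 * (X : ℝ) ^ (2 * u))) := by ring
    _ ≤ M * Real.exp (-D) := hfin
    _ ≤ _ := by linarith

end Pool.Agent.Lib.MP_509488_nt.Unif
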