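import Pool.Agent.Lib.MP_509488_nt.Short81.All5

set_option autoImplicit false

/-!
# Almost all bases in a short interval, against ALL small second bases
-/

namespace Pool.Agent.Lib.MP_509488_nt.Unif

open Finset

/-- Almost all `y` in an interval of `M` terms in `[1, N]` occur in no solution together with any
`x ≤ exp (log M / (log w) ^ D)`. -/
def Small4A : Prop := ∃ D N₀ : ℕ, ∀ N : ℕ, N₀ ≤ N → ∀ w : ℝ, Real.log N ≤ w → ∀ X M : ℕ,
  X + M ≤ N → Real.log w ^ D ≤ Real.log M →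
  ({y : ℕ | X < y ∧ y ≤ X + M ∧ 2 ≤ y ∧
      ∃ x : ℕ, 2 ≤ x ∧ Real.log x ≤ Real.log M / Real.log w ^ D ∧ Nat.Coprime x y ∧
      ∃ (p q r : ℕ) (z e₁ e₂ : ℤ), 1 ≤ p ∧ q.Prime ∧ 2 ≤ r ∧ (e₁ = 1 ∨ e₁ = -1) ∧
        (e₂ = 1 ∨ e₂ = -1) ∧ e₁ * (x : ℤ) ^ p + e₂ * (y : ℤ) ^ q = z ^ r}.ncard : ℝ) ≤
    5 * M / Real.log w

open scoped Classical in
/-- almost all bases against all small second bases. -/
theorem small4A (h : Final4A) : Small4A := by
  obtain ⟨C, N₁, hF⟩ := h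
  obtain ⟨s, Z0, hs1, hR0⟩ := UPI.rough_int
  obtain ⟨N₂, hN₂⟩ := log_ge (Real.exp (max 6 (max (s : ℝ) Z0)))
  refine ⟨C + 2, max (max N₁ N₂) 1, ?_⟩
  intro N hN w hwN X M hXM hM
  have hN1 : N₁ ≤ N := le_trans (le_trans (le_max_left _ _) (le_max_left _ _)) hN
  have hN2 : N₂ ≤ N := le_trans (le_trans (le_max_right _ _) (le_max_left _ _)) hN
  have hLN := hN₂ N hN2
  have hw0 : 0 < w := lt_of_lt_of_le (Real.exp_pos _) (hLN.trans hwN)
  set L : ℝ := Real.log w with hL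
  have hLm : max 6 (max (s : ℝ) Z0) ≤ L := by
    rw [hL, Real.le_log_iff_exp_le hw0]; exact hLN.trans hwN
  have hL6 : 6 ≤ L := (le_max_left _ _).trans hLm
  have hLs : (s : ℝ) ≤ L := (le_trans (le_max_left _ _) (le_max_right _ _)).trans hLm
  have hLZ : (Z0 : ℝ) ≤ L := (le_trans (le_max_right _ _) (le_max_right _ _)).trans hLm
  have hL0 : 0 < L := by linarith
  have hwexp : Real.exp L = w := Real.exp_log hw0
  have hwL : L + 1 ≤ w := by
    rw [← hwexp]; exact Real.add_one_le_exp L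
  set t : ℝ := Real.log M with ht
  have hLD : 1 ≤ L ^ (C + 2) := one_le_pow₀ (by linarith)
  have ht0 : 0 < t := by linarith
  have hMpos : (1 : ℝ) < M := by
    by_contra hcon
    push Not at hcon
    have : t ≤ 0 := Real.log_nonpos (Nat.cast_nonneg M) hcon
    linarith
  have hM0 : (0 : ℝ) < M := by linarith
  have hMexp : Real.exp t = M := Real.exp_log hM0
  -- rough numbers
  have hws : w ^ s ≤ (M : ℝ) := by
    rw [← hwexp, ← Real.exp_nat_mul, ← hMexp]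
    apply Real.exp_le_exp.2
    have h1 : (s : ℝ) * L ≤ L * L := mul_le_mul_of_nonneg_right hLs hL0.le
    have h2 : L * L ≤ L ^ (C + 2) := by
      rw [pow_add, sq]
      exact le_mul_of_one_le_left (by positivity) (one_le_pow₀ (by linarith))
    linarith
  have hRc := hR0 w (by linarith) (by linarith) X M hws
  set R : Finset ℕ := (Ioc X (X + M)).filter (fun m : ℕ => ∀ l : ℕ, l.Prime → l ∣ m → w < l)
    with hR
  -- the union over the small bases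
  set Y : ℝ := Real.exp (t / L ^ (C + 2)) with hY
  have hYM : Y ≤ M := by
    rw [hY, ← hMexp]
    apply Real.exp_le_exp.2
    exact div_le_self ht0.le hLD
  set S : Finset ℕ := Icc 2 ⌊Y⌋₊ with hS
  have hSc : (S.card : ℝ) ≤ Y := by
    have h1 : S.card ≤ ⌊Y⌋₊ := by
      rw [hS, Nat.card_Icc]; omega
    calc (S.card : ℝ) ≤ (⌊Y⌋₊ : ℝ) := by exact_mod_cast h1
      _ ≤ Y := Nat.floor_le (Real.exp_pos _).le
  set B : ℕ → Finset ℕ := fun x => (Ioc X (X + M)).filter (fun y : ℕ => 2 ≤ y ∧ Nat.Coprime x y ∧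
      ∃ (p q r : ℕ) (z e₁ e₂ : ℤ), 1 ≤ p ∧ q.Prime ∧ 2 ≤ r ∧ (e₁ = 1 ∨ e₁ = -1) ∧
        (e₂ = 1 ∨ e₂ = -1) ∧ e₁ * (x : ℤ) ^ p + e₂ * (y : ℤ) ^ q = z ^ r ∧
        ((∃ l : ℕ, l.Prime ∧ l ∣ x * y ∧ (l : ℝ) ≤ w) ∨
          ((p : ℝ) ≤ Real.exp w ∧ (q : ℝ) ≤ Real.exp w))) with hB
  have hBc : ∀ x ∈ S, ((B x).card : ℝ) ≤ 3 * M * Real.exp (-(t / L ^ C)) := by
    intro x hx
    rw [hS, Finset.mem_Icc] at hx
    have hxY : (x : ℝ) ≤ Y := (Nat.le_floor_iff (Real.exp_pos _).le).1 hx.2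
    have hxN : x ≤ N := by
      have h1 : x ≤ M := by exact_mod_cast hxY.trans hYM
      omega
    have h1 := hF N hN1 w hwN x hx.1 hxN (X + 1) 1 M (by omega) le_rfl (fun j hj => by omega)
    have h2 : {y : ℕ | (∃ j < M, y = X + 1 + 1 * j) ∧ 2 ≤ y ∧ Nat.Coprime x y ∧
      ∃ (p q r : ℕ) (z e₁ e₂ : ℤ), 1 ≤ p ∧ q.Prime ∧ 2 ≤ r ∧ (e₁ = 1 ∨ e₁ = -1) ∧
        (e₂ = 1 ∨ e₂ = -1) ∧ e₁ * (x : ℤ) ^ p + e₂ * (y : ℤ) ^ q = z ^ r ∧
        ((∃ l : ℕ, l.Prime ∧ l ∣ x * y ∧ (l : ℝ) ≤ w) ∨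
          ((p : ℝ) ≤ Real.exp w ∧ (q : ℝ) ≤ Real.exp w))} = (B x : Set ℕ) := by
      ext y
      simp only [hB, Set.mem_ofPred_eq, Finset.coe_filter, Finset.mem_Ioc]
      constructor
      · rintro ⟨⟨j, hj, rfl⟩, hy⟩
        exact ⟨⟨by omega, by omega⟩, hy⟩
      · rintro ⟨⟨h3, h4⟩, hy⟩
        exact ⟨⟨y - (X + 1), by omega, by omega⟩, hy⟩
    rw [h2, Set.ncard_coe_finset] at h1
    exact h1
  have hsub : {y : ℕ | X < y ∧ y ≤ X + M ∧ 2 ≤ y ∧
      ∃ x : ℕ, 2 ≤ x ∧ Real.log x ≤ t / L ^ (C + 2) ∧ Nat.Coprime x y ∧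
      ∃ (p q r : ℕ) (z e₁ e₂ : ℤ), 1 ≤ p ∧ q.Prime ∧ 2 ≤ r ∧ (e₁ = 1 ∨ e₁ = -1) ∧
        (e₂ = 1 ∨ e₂ = -1) ∧ e₁ * (x : ℤ) ^ p + e₂ * (y : ℤ) ^ q = z ^ r} ⊆
      ((S.biUnion B ∪ R : Finset ℕ) : Set ℕ) := by
    rintro y ⟨hy1, hy2, hy3, x, hx2, hxl, hxy, p, q, r, z, e₁, e₂, hp, hq, hr, he₁, he₂, heq⟩
    rw [Finset.mem_coe, Finset.mem_union]
    by_cases hl : ∃ l : ℕ, l.Prime ∧ l ∣ x * y ∧ (l : ℝ) ≤ w
    · left
      rw [Finset.mem_biUnion]
      refine ⟨x, ?_, ?_⟩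
      · rw [hS, Finset.mem_Icc]
        refine ⟨hx2, Nat.le_floor ?_⟩
        have hx0 : (0 : ℝ) < x := by
          have : 0 < x := by omega
          exact_mod_cast this
        rw [hY, ← Real.exp_log hx0]
        exact Real.exp_le_exp.2 hxl
      · simp only [hB, Finset.mem_filter, Finset.mem_Ioc]
        exact ⟨⟨hy1, hy2⟩, hy3, hxy, p, q, r, z, e₁, e₂, hp, hq, hr, he₁, he₂, heq, Or.inl hl⟩
    · right
      simp only [hR, Finset.mem_filter, Finset.mem_Ioc]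
      refine ⟨⟨hy1, hy2⟩, ?_⟩
      intro l hlp hly
      by_contra hcon
      exact hl ⟨l, hlp, Dvd.dvd.mul_left hly x, not_lt.1 hcon⟩
  have hcard := Set.ncard_le_ncard hsub (S.biUnion B ∪ R).finite_toSet
  rw [Set.ncard_coe_finset] at hcard
  have hcard' := (Nat.cast_le (α := ℝ)).2 hcard
  refine hcard'.trans ?_
  have hU : ((S.biUnion B ∪ R).card : ℝ) ≤ (S.biUnion B).card + R.card := by
    exact_mod_cast Finset.card_union_le _ _
  have hBU : ((S.biUnion B).card : ℝ) ≤ Y * (3 * M * Real.exp (-(t / L ^ C))) := by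
    calc ((S.biUnion B).card : ℝ) ≤ ((∑ x ∈ S, (B x).card : ℕ) : ℝ) := by
          exact_mod_cast Finset.card_biUnion_le
      _ = ∑ x ∈ S, ((B x).card : ℝ) := by push_cast; rfl
      _ ≤ ∑ x ∈ S, (3 * M * Real.exp (-(t / L ^ C))) := Finset.sum_le_sum hBc
      _ = (S.card : ℝ) * (3 * M * Real.exp (-(t / L ^ C))) := by
          rw [Finset.sum_const, nsmul_eq_mul]
      _ ≤ Y * (3 * M * Real.exp (-(t / L ^ C))) := by
          apply mul_le_mul_of_nonneg_right hSc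
          positivity
  have hfin : Y * (3 * M * Real.exp (-(t / L ^ C))) ≤ M / L := by
    have h1 : L ^ 2 ≤ t / L ^ C := by
      rw [le_div_iff₀ (by positivity), ← pow_add]
      rwa [add_comm C 2] at hM
    have h2 : t / L ^ (C + 2) ≤ (t / L ^ C) / 2 := by
      have h3 : t / L ^ (C + 2) = (t / L ^ C) / L ^ 2 := by
        rw [pow_add]; field_simp
      rw [h3]
      apply div_le_div_of_nonneg_left (by positivity) (by norm_num)
      nlinarith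
    have h4 : Y * Real.exp (-(t / L ^ C)) ≤ Real.exp (-(L ^ 2 / 2)) := by
      rw [hY, ← Real.exp_add]
      apply Real.exp_le_exp.2
      linarith
    have h5 : Real.exp (-(L ^ 2 / 2)) ≤ 1 / (3 * L) := by
      rw [Real.exp_neg, inv_eq_one_div]
      apply one_div_le_one_div_of_le (by linarith)
      have h6 := Real.add_one_le_exp (L ^ 2 / 2)
      nlinarith
    calc Y * (3 * M * Real.exp (-(t / L ^ C))) = 3 * M * (Y * Real.exp (-(t / L ^ C))) := by ring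
      _ ≤ 3 * M * (1 / (3 * L)) := mul_le_mul_of_nonneg_left (h4.trans h5) (by positivity)
      _ = M / L := by field_simp
  calc ((S.biUnion B ∪ R).card : ℝ) ≤ (S.biUnion B).card + R.card := hU
    _ ≤ M / L + 4 * (M / L) := add_le_add (hBU.trans hfin) hRc
    _ = 5 * M / L := by ring

theorem allSmallA : Small4A := small4A allFinalA

end Pool.Agent.Lib.MP_509488_nt.Unif
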