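import Pool.Agent.Lib.MP_509488_nt.Short81.MainA

set_option autoImplicit false

/-!
# All small coefficients and second bases at once
-/

namespace Pool.Agent.Lib.MP_509488_nt.Density

open Finset

/-- The exceptional set of one tuple of coefficients and bases. -/
def Exc (r k : ℕ) (a b N : ℕ) (A C : ℤ) (y : Fin k → ℤ) : Set ℕ :=
  {x : ℕ | (∃ j < N, x = a + b * j) ∧ ∃ (p : ℕ) (q : Fin k → ℕ) (z : ℤ),
    1 ≤ p ∧ (p.divisors.card : ℝ) ^ 5 ≤ Real.log N ∧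
      A * (x : ℤ) ^ p + ∏ i, y i ^ q i = C * z ^ r}

theorem exc_bound (r : ℕ) (hr : 2 ≤ r) : ∃ η : ℝ, 0 < η ∧ ∀ k : ℕ, ∃ N₀ : ℕ, ∀ N : ℕ, N₀ ≤ N →
    ∀ (A C : ℤ) (y : Fin k → ℤ) (a b : ℕ), A ≠ 0 → C ≠ 0 → (∀ i, y i ≠ 0) → b ≠ 0 →
      ((|A * C * b * ∏ i, y i| : ℤ) : ℝ) ≤ Real.exp (Real.log N ^ (1 + η)) →
      ((Exc r k a b N A C y).ncard : ℝ) ≤ (N : ℝ) ^ (1 - η) := by
  classical
  obtain ⟨η, hη, h⟩ := main_countA r hr
  refine ⟨η, hη, fun k => ?_⟩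
  obtain ⟨N₀, h⟩ := h k
  refine ⟨N₀, fun N hN A C y a b hA hC hy hb hQ => ?_⟩
  refine le_trans ?_ (h N hN A C y a b hA hC hy hb hQ)
  have hsub : Exc r k a b N A C y ⊆
      (fun j : ℕ => a + b * j) '' (((Finset.range N).filter (fun j : ℕ =>
        ∃ (p : ℕ) (e : Fin k → ℕ) (z : ℤ), (1 ≤ p ∧ (p.divisors.card : ℝ) ^ 5 ≤ Real.log N) ∧
          A * ((a + b * j : ℕ) : ℤ) ^ p + ∏ i, y i ^ e i = C * z ^ r) : Finset ℕ) : Set ℕ) := by
    rintro x ⟨⟨j, hj, rfl⟩, p, q, z, hp, hd, he⟩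
    refine ⟨j, ?_, rfl⟩
    rw [Finset.mem_coe, Finset.mem_filter, Finset.mem_range]
    exact ⟨hj, p, q, z, ⟨hp, hd⟩, he⟩
  have h1 := (Set.ncard_le_ncard hsub (Set.Finite.image _ (Finset.finite_toSet _))).trans
    (Set.ncard_image_le (Finset.finite_toSet _))
  rw [Set.ncard_coe_finset] at h1
  exact_mod_cast h1

theorem exc_finite (r k a b N : ℕ) (A C : ℤ) (y : Fin k → ℤ) : (Exc r k a b N A C y).Finite := by
  apply Set.Finite.subset ((Finset.range N).image (fun j => a + b * j)).finite_toSet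
  rintro x ⟨⟨j, hj, rfl⟩, _⟩
  rw [Finset.mem_coe, Finset.mem_image]
  exact ⟨j, Finset.mem_range.2 hj, rfl⟩

/-- All tuples with entries at most `N ^ (η / (4 (k + 2)))` at once. -/
theorem union_bound (r : ℕ) (η : ℝ) (hη : 0 < η) (k N₀ : ℕ)
    (h : ∀ N : ℕ, N₀ ≤ N →
      ∀ (A C : ℤ) (y : Fin k → ℤ) (a b : ℕ), A ≠ 0 → C ≠ 0 → (∀ i, y i ≠ 0) → b ≠ 0 →
      ((|A * C * b * ∏ i, y i| : ℤ) : ℝ) ≤ Real.exp (Real.log N ^ (1 + η)) →
      ((Exc r k a b N A C y).ncard : ℝ) ≤ (N : ℝ) ^ (1 - η)) :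
    ∃ N₁ : ℕ, ∀ N : ℕ, N₁ ≤ N → ∀ a b : ℕ, b ≠ 0 → Real.log b ≤ Real.log N ^ (1 + η) / 2 →
      ({x : ℕ | ∃ (A C : ℤ) (y : Fin k → ℤ), A ≠ 0 ∧ C ≠ 0 ∧ (∀ i, y i ≠ 0) ∧
          (|A| : ℝ) ≤ (N : ℝ) ^ (η / (4 * (k + 2))) ∧ (|C| : ℝ) ≤ (N : ℝ) ^ (η / (4 * (k + 2))) ∧
          (∀ i, (|y i| : ℝ) ≤ (N : ℝ) ^ (η / (4 * (k + 2)))) ∧
          x ∈ Exc r k a b N A C y}.ncard : ℝ) ≤ (N : ℝ) ^ (1 - η / 2) := by
  classical
  -- largeness
  have hk2 : (0 : ℝ) < (k : ℝ) + 2 := by positivity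
  obtain ⟨N₂, hN₂⟩ : ∃ N₂ : ℕ, ∀ N : ℕ, N₂ ≤ N → (3 : ℝ) ^ (k + 2) ≤ (N : ℝ) ^ (η / 4) ∧
      η / 2 ≤ Real.log N ^ η ∧ 1 ≤ Real.log N ∧ 1 ≤ N := by
    have e1 := ((tendsto_rpow_atTop (show 0 < η / 4 by positivity)).comp
      tendsto_natCast_atTop_atTop (α := ℕ)).eventually_ge_atTop ((3 : ℝ) ^ (k + 2))
    have e2 := (((tendsto_rpow_atTop hη).comp Real.tendsto_log_atTop).comp
      tendsto_natCast_atTop_atTop (α := ℕ)).eventually_ge_atTop (η / 2)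
    have e3 := (Real.tendsto_log_atTop.comp
      tendsto_natCast_atTop_atTop (α := ℕ)).eventually_ge_atTop (1 : ℝ)
    obtain ⟨N₂, h1⟩ := Filter.eventually_atTop.1 (((e1.and e2).and e3).and
      (Filter.eventually_ge_atTop 1))
    refine ⟨N₂, fun N hN => ?_⟩
    obtain ⟨⟨⟨h2, h3⟩, h4⟩, h5⟩ := h1 N hN
    exact ⟨h2, h3, h4, h5⟩
  refine ⟨max N₀ N₂, fun N hN a b hb hlb => ?_⟩
  obtain ⟨g1, g2, g3, g4⟩ := hN₂ N (le_trans (le_max_right _ _) hN)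
  have hN0 : N₀ ≤ N := le_trans (le_max_left _ _) hN
  have hNr : (1 : ℝ) ≤ N := by exact_mod_cast g4
  have hNpos : (0 : ℝ) < N := by linarith
  set T : ℝ := (N : ℝ) ^ (η / (4 * (k + 2))) with hT
  have hT1 : 1 ≤ T := Real.one_le_rpow hNr (by positivity)
  have hTk : T ^ (k + 2) = (N : ℝ) ^ (η / 4) := by
    rw [hT, ← Real.rpow_natCast, ← Real.rpow_mul hNpos.le]
    congr 1
    push_cast
    field_simp
  set D : ℤ := ⌊T⌋ with hD
  have hDT : (D : ℝ) ≤ T := Int.floor_le T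
  have hD1 : 1 ≤ D := Int.le_floor.2 (by exact_mod_cast hT1)
  have hmemD : ∀ t : ℤ, (|t| : ℝ) ≤ T → t ∈ Icc (-D) D := by
    intro t ht
    have h1 : |t| ≤ D := by
      apply Int.le_floor.2
      push_cast
      exact ht
    rw [Finset.mem_Icc]
    exact abs_le.1 h1
  have hDmem : ∀ t : ℤ, t ∈ Icc (-D) D → (|t| : ℝ) ≤ T := by
    intro t ht
    rw [Finset.mem_Icc] at ht
    have h1 : |t| ≤ D := abs_le.2 ht
    have h2 : ((|t| : ℤ) : ℝ) ≤ (D : ℝ) := by exact_mod_cast h1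
    push_cast at h2
    linarith
  set I : Finset (ℤ × ℤ × (Fin k → ℤ)) :=
    ((Icc (-D) D) ×ˢ ((Icc (-D) D) ×ˢ (Fintype.piFinset (fun _ : Fin k => Icc (-D) D)))).filter
      (fun v => v.1 ≠ 0 ∧ v.2.1 ≠ 0 ∧ ∀ i, v.2.2 i ≠ 0) with hI
  have hIc : (I.card : ℝ) ≤ (3 : ℝ) ^ (k + 2) * T ^ (k + 2) := by
    have h1 : (Icc (-D) D).card = (2 * D + 1).toNat := by
      rw [Int.card_Icc]; congr 1; ring
    have h2 : (((2 * D + 1).toNat : ℕ) : ℝ) ≤ 3 * T := by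
      have h3 : (((2 * D + 1).toNat : ℕ) : ℤ) = 2 * D + 1 := Int.toNat_of_nonneg (by omega)
      have h4 : (((2 * D + 1).toNat : ℕ) : ℝ) = 2 * (D : ℝ) + 1 := by exact_mod_cast h3
      rw [h4]
      linarith
    have h3 : I.card ≤ (2 * D + 1).toNat ^ (k + 2) := by
      refine (Finset.card_filter_le _ _).trans (le_of_eq ?_)
      rw [Finset.card_product, Finset.card_product, Fintype.card_piFinset]
      simp only [Finset.prod_const, Finset.card_univ, Fintype.card_fin]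
      rw [h1]
      ring
    calc (I.card : ℝ) ≤ (((2 * D + 1).toNat ^ (k + 2) : ℕ) : ℝ) := by exact_mod_cast h3
      _ = (((2 * D + 1).toNat : ℕ) : ℝ) ^ (k + 2) := by push_cast; rfl
      _ ≤ (3 * T) ^ (k + 2) := pow_le_pow_left₀ (Nat.cast_nonneg _) h2 _
      _ = _ := by rw [mul_pow]
  -- each tuple
  have hbpos : (0 : ℝ) < b := by
    have : 0 < b := Nat.pos_of_ne_zero hb
    exact_mod_cast this
  have hEc : ∀ v ∈ I, ((Exc r k a b N v.1 v.2.1 v.2.2).ncard : ℝ) ≤ (N : ℝ) ^ (1 - η) := by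
    rintro ⟨A, C, y⟩ hv
    rw [hI, Finset.mem_filter, Finset.mem_product, Finset.mem_product, Fintype.mem_piFinset] at hv
    obtain ⟨⟨hA, hC, hy⟩, hA0, hC0, hy0⟩ := hv
    apply h N hN0 A C y a b hA0 hC0 hy0 hb
    have h1 : ((|A * C * b * ∏ i, y i| : ℤ) : ℝ) = |(A : ℝ)| * |(C : ℝ)| * b * ∏ i, |(y i : ℝ)| := by
      push_cast
      rw [abs_mul, abs_mul, abs_mul, Finset.abs_prod, abs_of_pos hbpos]
    rw [h1]
    have h2 : ∏ i, |(y i : ℝ)| ≤ T ^ k := by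
      calc ∏ i, |(y i : ℝ)| ≤ ∏ _i : Fin k, T :=
            Finset.prod_le_prod (fun i _ => abs_nonneg _) (fun i _ => hDmem _ (hy i))
        _ = T ^ k := by rw [Finset.prod_const, Finset.card_univ, Fintype.card_fin]
    have h3 : |(A : ℝ)| ≤ T := hDmem A hA
    have h4 : |(C : ℝ)| ≤ T := hDmem C hC
    have hT0 : 0 ≤ T := by linarith
    have h5 : |(A : ℝ)| * |(C : ℝ)| * b * ∏ i, |(y i : ℝ)| ≤ T * T * b * T ^ k := by
      apply mul_le_mul _ h2 (Finset.prod_nonneg fun i _ => abs_nonneg _) (by positivity)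
      apply mul_le_mul_of_nonneg_right _ hbpos.le
      exact mul_le_mul h3 h4 (abs_nonneg _) hT0
    have h6 : T * T * b * T ^ k = T ^ (k + 2) * b := by ring
    refine h5.trans ?_
    rw [h6, hTk, ← Real.exp_log hbpos, Real.rpow_def_of_pos hNpos, ← Real.exp_add]
    apply Real.exp_le_exp.2
    have h7 : Real.log N ^ (1 + η) = Real.log N * Real.log N ^ η := by
      rw [Real.rpow_add (by linarith), Real.rpow_one]
    have h8 : Real.log N * (η / 2) ≤ Real.log N * Real.log N ^ η :=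
      mul_le_mul_of_nonneg_left g2 (by linarith)
    linarith
  have hsub : {x : ℕ | ∃ (A C : ℤ) (y : Fin k → ℤ), A ≠ 0 ∧ C ≠ 0 ∧ (∀ i, y i ≠ 0) ∧
          (|A| : ℝ) ≤ T ∧ (|C| : ℝ) ≤ T ∧ (∀ i, (|y i| : ℝ) ≤ T) ∧
          x ∈ Exc r k a b N A C y} ⊆
      ((I.biUnion (fun v => (exc_finite r k a b N v.1 v.2.1 v.2.2).toFinset) : Finset ℕ) :
        Set ℕ) := by
    rintro x ⟨A, C, y, hA0, hC0, hy0, hA, hC, hy, hx⟩
    rw [Finset.mem_coe, Finset.mem_biUnion]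
    refine ⟨(A, C, y), ?_, ?_⟩
    · rw [hI, Finset.mem_filter, Finset.mem_product, Finset.mem_product, Fintype.mem_piFinset]
      exact ⟨⟨hmemD A hA, hmemD C hC, fun i => hmemD _ (hy i)⟩, hA0, hC0, hy0⟩
    · rw [Set.Finite.mem_toFinset]
      exact hx
  have h1 := Set.ncard_le_ncard hsub (Finset.finite_toSet _)
  rw [Set.ncard_coe_finset] at h1
  have h2 : ((I.biUnion (fun v => (exc_finite r k a b N v.1 v.2.1 v.2.2).toFinset)).card : ℝ) ≤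
      ∑ v ∈ I, ((Exc r k a b N v.1 v.2.1 v.2.2).ncard : ℝ) := by
    have h3 := Finset.card_biUnion_le (s := I)
      (t := fun v => (exc_finite r k a b N v.1 v.2.1 v.2.2).toFinset)
    have h4 : ∑ v ∈ I, ((exc_finite r k a b N v.1 v.2.1 v.2.2).toFinset).card =
        ∑ v ∈ I, (Exc r k a b N v.1 v.2.1 v.2.2).ncard :=
      Finset.sum_congr rfl fun v _ => by
        rw [Set.ncard_eq_toFinset_card _ (exc_finite r k a b N v.1 v.2.1 v.2.2)]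
    rw [h4] at h3
    exact_mod_cast h3
  calc _ ≤ ((I.biUnion (fun v =>
        (exc_finite r k a b N v.1 v.2.1 v.2.2).toFinset)).card : ℝ) := by exact_mod_cast h1
    _ ≤ ∑ v ∈ I, ((Exc r k a b N v.1 v.2.1 v.2.2).ncard : ℝ) := h2
    _ ≤ ∑ _v ∈ I, (N : ℝ) ^ (1 - η) := Finset.sum_le_sum hEc
    _ = I.card * (N : ℝ) ^ (1 - η) := by rw [Finset.sum_const, nsmul_eq_mul]
    _ ≤ ((N : ℝ) ^ (η / 4) * (N : ℝ) ^ (η / 4)) * (N : ℝ) ^ (1 - η) := by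
        apply mul_le_mul_of_nonneg_right _ (by positivity)
        refine hIc.trans ?_
        rw [hTk]
        exact mul_le_mul_of_nonneg_right g1 (by positivity)
    _ = (N : ℝ) ^ (1 - η / 2) := by
        rw [← Real.rpow_add hNpos, ← Real.rpow_add hNpos]
        congr 1
        ring

end Pool.Agent.Lib.MP_509488_nt.Density
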